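import Pool.Agent.Q112.QCI.Free

/-!
# Quantum complete intersections
-/

set_option autoImplicit false

universe u

open CategoryTheory Abelian MulOpposite

namespace Pool.Agent.Q112.QCI

/-- the defining relations `x_i ^ a_i = 0` and `x_i x_j + q_{i,j} x_j x_i = 0` for `j < i` -/
inductive Rel {n : ℕ} (K : Type u) [Field K] (a : Fin n → ℕ) (q : Fin n → Fin n → K) :
    FreeAlgebra K (Fin n) → FreeAlgebra K (Fin n) → Prop
  | pow (i : Fin n) : Rel K a q (FreeAlgebra.ι K i ^ a i) 0
  | comm (i j : Fin n) (h : j < i) : Rel K a q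
      (FreeAlgebra.ι K i * FreeAlgebra.ι K j +
        q i j • (FreeAlgebra.ι K j * FreeAlgebra.ι K i)) 0

/-- the quantum complete intersection -/
abbrev QCI {n : ℕ} (K : Type u) [Field K] (a : Fin n → ℕ) (q : Fin n → Fin n → K) : Type u :=
  RingQuot (Rel K a q)

section

variable {K : Type u} [Field K] {n : ℕ} {a : Fin n → ℕ} {q : Fin n → Fin n → K}

/-- the generators, in the opposite algebra -/
noncomputable def gen (a : Fin n → ℕ) (q : Fin n → Fin n → K) (i : Fin n) : (QCI K a q)ᵐᵒᵖ :=
  op (RingQuot.mkAlgHom K (Rel K a q) (FreeAlgebra.ι K i))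

/-- the commutation parameters of the generators in the opposite algebra -/
noncomputable def cc (q : Fin n → Fin n → K) (i j : Fin n) : K :=
  if i < j then - q j i else if j < i then (- q i j)⁻¹ else 1

theorem cc_mul (hq : ∀ i j : Fin n, j < i → q i j ≠ 0) (i j : Fin n) (hij : i ≠ j) :
    cc q i j * cc q j i = 1 := by
  rcases lt_or_gt_of_ne hij with h | h
  · have h' : ¬ j < i := not_lt.2 h.le
    simp only [cc, h, h', if_true, if_false]
    exact mul_inv_cancel₀ (neg_ne_zero.2 (hq j i h))
  · have h' : ¬ i < j := not_lt.2 h.le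
    simp only [cc, h, h', if_true, if_false]
    exact inv_mul_cancel₀ (neg_ne_zero.2 (hq i j h))

theorem gen_quasi (hq : ∀ i j : Fin n, j < i → q i j ≠ 0) :
    Quasi a (cc q) (gen a q) where
  pow i := by
    have := RingQuot.mkAlgHom_rel K (Rel.pow (K := K) (a := a) (q := q) i)
    rw [map_pow, map_zero] at this
    rw [gen, ← op_pow, this]
    rfl
  comm i j hij := by
    have key : ∀ i j : Fin n, i < j → gen a q i * gen a q j = (- q j i) • (gen a q j * gen a q i) := by
      intro i j h
      have := RingQuot.mkAlgHom_rel K (Rel.comm (K := K) (a := a) (q := q) j i h)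
      rw [map_add, map_smul, map_mul, map_mul, map_zero] at this
      have h2 := eq_neg_of_add_eq_zero_left this
      rw [gen, gen, ← op_mul, ← op_mul, h2]
      exact congrArg op (neg_smul (q j i) _).symm
    rcases lt_or_gt_of_ne hij with h | h
    · rw [key i j h]
      simp only [cc, h, if_true]
    · have h' : ¬ i < j := not_lt.2 h.le
      simp only [cc, h, h', if_true, if_false]
      rw [key j i h, smul_smul, inv_mul_cancel₀ (neg_ne_zero.2 (hq i j h)), one_smul]

theorem adjoin_gen : Algebra.adjoin K (Set.range (gen a q)) = ⊤ := by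
  rw [eq_top_iff]
  rintro x -
  obtain ⟨y, hy⟩ := RingQuot.mkAlgHom_surjective K (Rel K a q) x.unop
  have hx : x = op (RingQuot.mkAlgHom K (Rel K a q) y) := by rw [hy]; rfl
  rw [hx]
  clear hx hy x
  induction y using FreeAlgebra.induction with
  | grade0 k =>
    rw [AlgHom.commutes]
    exact Subalgebra.algebraMap_mem _ k
  | grade1 i => exact Algebra.subset_adjoin ⟨i, rfl⟩
  | mul x y hx hy =>
    rw [map_mul, op_mul]
    exact Subalgebra.mul_mem _ hy hx
  | add x y hx hy =>
    rw [map_add, MulOpposite.op_add]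
    exact Subalgebra.add_mem _ hx hy

theorem lift (E : Type u) [AddCommGroup E] [Module K E]
    (Y : Fin n → Module.End K E) (hY : Quasi a (cc q) Y) :
    ∃ ρ : (QCI K a q)ᵐᵒᵖ →ₐ[K] Module.End K E, ∀ i, ρ (gen a q i) = Y i := by
  have hrel : ∀ ⦃x y⦄, Rel K a q x y →
      FreeAlgebra.lift K (fun i => op (Y i)) x = FreeAlgebra.lift K (fun i => op (Y i)) y := by
    intro x y h
    cases h with
    | pow i =>
      rw [map_pow, FreeAlgebra.lift_ι_apply, ← op_pow, hY.pow i, map_zero, op_zero]
    | comm i j h =>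
      rw [map_add, map_smul, map_mul, map_mul, FreeAlgebra.lift_ι_apply, FreeAlgebra.lift_ι_apply,
        ← op_mul, ← op_mul, map_zero]
      have e := hY.comm j i h.ne
      simp only [cc, h, if_true] at e
      rw [e, ← op_smul, ← MulOpposite.op_add, neg_smul, neg_add_cancel, op_zero]
  refine ⟨AlgHom.opComm (RingQuot.liftAlgHom K ⟨FreeAlgebra.lift K (fun i => op (Y i)), hrel⟩),
    fun i => ?_⟩
  change unop (RingQuot.liftAlgHom K ⟨FreeAlgebra.lift K (fun i => op (Y i)), hrel⟩
    (RingQuot.mkAlgHom K (Rel K a q) (FreeAlgebra.ι K i))) = Y i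
  rw [RingQuot.liftAlgHom_mkAlgHom_apply, FreeAlgebra.lift_ι_apply]
  rfl

theorem nontrivial_op (ha : ∀ i, 1 ≤ a i) : Nontrivial (QCI K a q)ᵐᵒᵖ := by
  obtain ⟨ρ, -⟩ := lift (a := a) (q := q) K (fun _ => 0)
    { pow := fun i => zero_pow (by have := ha i; omega)
      comm := fun i j _ => by simp }
  refine ⟨0, 1, fun h => ?_⟩
  have h2 : (0 : Module.End K K) = 1 := by
    rw [← map_zero ρ, h, map_one]
  have h3 := LinearMap.congr_fun h2 (1 : K)
  simp at h3

end

end Pool.Agent.Q112.QCI
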