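import Mathlib

/-!
# From a generic twist to an arbitrary one
-/

set_option autoImplicit false

namespace Pool.Agent.Q112.QCI

universe u v

theorem exists_char {G : Type*} [CommGroup G] (w s : G) (hw : ∀ k : ℤ, w ^ k = 1 → k = 0) :
    ∃ c : G → G, ∀ g, c (w * g) = s * c g := by
  classical
  have key : ∀ g : G, ∃ m : ℤ, (Quotient.out (g : G ⧸ Subgroup.zpowers w) : G) = g * w ^ m := by
    intro g
    obtain ⟨⟨h, hh⟩, e⟩ := QuotientGroup.mk_out_eq_mul (Subgroup.zpowers w) g
    obtain ⟨m, rfl⟩ := Subgroup.mem_zpowers_iff.1 hh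
    exact ⟨m, e⟩
  choose m hm using key
  refine ⟨fun g => s ^ (- m g), fun g => ?_⟩
  have e1 : ((w * g : G) : G ⧸ Subgroup.zpowers w) = (g : G ⧸ Subgroup.zpowers w) := by
    rw [QuotientGroup.eq]
    refine Subgroup.mem_zpowers_iff.2 ⟨-1, ?_⟩
    rw [mul_inv_rev, mul_comm g⁻¹, mul_assoc, inv_mul_cancel, mul_one, zpow_neg_one]
  have e2 := hm (w * g)
  rw [e1, hm g] at e2
  have e3 : w ^ (m g) = w ^ (m (w * g) + 1) := by
    have : g * w ^ (m g) = g * w ^ (m (w * g) + 1) := by
      rw [e2, zpow_add_one]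
      rw [mul_comm w g, mul_assoc, mul_comm w]
    exact mul_left_cancel this
  have e4 : m g = m (w * g) + 1 := by
    have : w ^ (m g - (m (w * g) + 1)) = 1 := by
      rw [zpow_sub, e3, mul_inv_cancel]
    have := hw _ this
    omega
  change s ^ (- m (w * g)) = s * s ^ (- m g)
  rw [e4, ← zpow_one_add]
  congr 1
  ring

variable {L : Type u} [Field L] [IsAlgClosed L] {V : Type v} [AddCommGroup V] [Module L V]
  [FiniteDimensional L V]

open Module Module.End

/-- **Twisting.** If `f` is invertible and `f Y = w Y f` with `w` not a root of unity, then for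
every nonzero `s` there is an invertible `F` with `F Y = s Y F` commuting with everything that
commutes with `f`. -/
theorem exists_twist_end (f Y : End L V) (hf : IsUnit f) (w s : L) (hw0 : w ≠ 0) (hs : s ≠ 0)
    (hw : ∀ k : ℤ, w ^ k = 1 → k = 0) (hY : f * Y = w • (Y * f)) :
    ∃ F : End L V, IsUnit F ∧ F * Y = s • (Y * F) ∧ ∀ Z : End L V, f * Z = Z * f → F * Z = Z * F := by
  classical
  obtain ⟨c0, hc0⟩ := exists_char (Units.mk0 w hw0) (Units.mk0 s hs) (fun k hk => hw k (by
    have := congrArg Units.val hk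
    simpa using this))
  let c : L → L := fun μ => if h : μ = 0 then 1 else (c0 (Units.mk0 μ h) : L)
  have cne : ∀ μ, c μ ≠ 0 := by
    intro μ
    by_cases h : μ = 0
    · simp [c, h]
    · simp [c, h]
  have cmul : ∀ μ, μ ≠ 0 → c (w * μ) = s * c μ := by
    intro μ hμ
    have h1 : w * μ ≠ 0 := mul_ne_zero hw0 hμ
    have e := hc0 (Units.mk0 μ hμ)
    have e2 : Units.mk0 (w * μ) h1 = Units.mk0 w hw0 * Units.mk0 μ hμ := by
      ext; simp
    simp only [c, h1, hμ, dif_neg, not_false_eq_true]
    rw [e2, e]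
    simp
  let W : L → Submodule L V := fun μ => f.maxGenEigenspace μ
  have hint : DirectSum.IsInternal W := by
    apply DirectSum.isInternal_submodule_of_iSupIndep_of_iSup_eq_top
    · exact independent_maxGenEigenspace f
    · exact iSup_maxGenEigenspace_eq_top f
  let e : (DirectSum L fun μ => W μ) ≃ₗ[L] V := LinearEquiv.ofBijective (DirectSum.coeLinearMap W) hint
  have he : ∀ (μ : L) (v : W μ), e (DirectSum.lof L L (fun μ => W μ) μ v) = (v : V) := by
    intro μ v
    exact DirectSum.coeLinearMap_lof W μ v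
  let mk : (L → L) → End L V := fun d =>
    (e.toLinearMap ∘ₗ (DirectSum.toModule L L _ fun μ =>
      (DirectSum.lof L L (fun μ => W μ) μ) ∘ₗ (d μ • LinearMap.id))) ∘ₗ e.symm.toLinearMap
  have hmk : ∀ (d : L → L) (μ : L) (v : V), v ∈ W μ → mk d v = d μ • v := by
    intro d μ v hv
    have : e.symm v = DirectSum.lof L L (fun μ => W μ) μ ⟨v, hv⟩ := by
      rw [LinearEquiv.symm_apply_eq, he]
    simp only [mk, LinearMap.comp_apply, LinearEquiv.coe_coe, this, DirectSum.toModule_lof]
    rw [he]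
    rfl
  have ext : ∀ A B : End L V, (∀ μ v, v ∈ W μ → A v = B v) → A = B := by
    intro A B h
    have : (⊤ : Submodule L V) ≤ LinearMap.eqLocus A B := by
      rw [← iSup_maxGenEigenspace_eq_top f]
      apply iSup_le
      intro μ v hv
      exact h μ v hv
    ext v
    exact this (Submodule.mem_top)
  -- `Y` maps `W μ` to `W (w μ)`
  have hpow : ∀ (μ : L) (k : ℕ), (f - (w * μ) • 1) ^ k * Y = w ^ k • (Y * (f - μ • 1) ^ k) := by
    intro μ k
    induction k with
    | zero => simp
    | succ k ih =>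
      have h1 : (f - (w * μ) • (1 : End L V)) * Y = w • (Y * (f - μ • 1)) := by
        rw [sub_mul, hY, mul_sub, smul_mul_assoc, one_mul, mul_smul_comm, mul_one, smul_sub,
          smul_smul]
      rw [pow_succ, mul_assoc, h1, mul_smul_comm, ← mul_assoc, ih, smul_mul_assoc, smul_smul,
        ← pow_succ', mul_assoc, ← pow_succ]
  have hYW : ∀ (μ : L) (v : V), v ∈ W μ → Y v ∈ W (w * μ) := by
    intro μ v hv
    rw [mem_maxGenEigenspace] at hv ⊢
    obtain ⟨k, hk⟩ := hv
    refine ⟨k, ?_⟩
    have := LinearMap.congr_fun (hpow μ k) v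
    simp only [Module.End.mul_apply, LinearMap.smul_apply] at this
    rw [this, hk, map_zero, smul_zero]
  have hZW : ∀ (Z : End L V), f * Z = Z * f → ∀ (μ : L) (v : V), v ∈ W μ → Z v ∈ W μ := by
    intro Z hZ μ v hv
    rw [mem_maxGenEigenspace] at hv ⊢
    obtain ⟨k, hk⟩ := hv
    refine ⟨k, ?_⟩
    have hc : Commute (f - μ • 1) Z := by
      change (f - μ • 1) * Z = Z * (f - μ • 1)
      rw [sub_mul, hZ, mul_sub, smul_mul_assoc, one_mul, mul_smul_comm, mul_one]
    have := LinearMap.congr_fun (hc.pow_left k) v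
    simp only [Module.End.mul_apply] at this
    rw [this, hk, map_zero]
  have hW0 : ∀ v : V, v ∈ W 0 → v = 0 := by
    intro v hv
    rw [mem_maxGenEigenspace] at hv
    obtain ⟨k, hk⟩ := hv
    rw [zero_smul, sub_zero] at hk
    obtain ⟨g, hg⟩ := hf.pow k
    have : (↑g⁻¹ * ↑g : End L V) v = 0 := by
      rw [Module.End.mul_apply, hg, hk, map_zero]
    rw [Units.inv_mul] at this
    exact this
  refine ⟨mk c, ?_, ?_, ?_⟩
  · refine isUnit_iff_exists.2 ⟨mk fun μ => (c μ)⁻¹, ?_, ?_⟩
    · apply ext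
      intro μ v hv
      rw [Module.End.mul_apply, hmk _ μ v hv, map_smul, hmk _ μ v hv, smul_smul,
        inv_mul_cancel₀ (cne μ), one_smul]
      rfl
    · apply ext
      intro μ v hv
      rw [Module.End.mul_apply, hmk _ μ v hv, map_smul, hmk _ μ v hv, smul_smul,
        mul_inv_cancel₀ (cne μ), one_smul]
      rfl
  · apply ext
    intro μ v hv
    by_cases hμ : μ = 0
    · subst hμ
      rw [hW0 v hv, map_zero, map_zero]
    · rw [Module.End.mul_apply, hmk _ _ _ (hYW μ v hv), LinearMap.smul_apply, Module.End.mul_apply,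
        hmk _ _ _ hv, map_smul, cmul μ hμ, mul_smul]
  · intro Z hZ
    apply ext
    intro μ v hv
    rw [Module.End.mul_apply, Module.End.mul_apply, hmk _ _ _ hv, hmk _ _ _ (hZW Z hZ μ v hv),
      map_smul]

end Pool.Agent.Q112.QCI
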