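import Pool.Agent.Q112.QCI.Big
import Pool.Agent.Q112.QCI.Twist

/-!
# Base change of rigidity, and the trace identity over the big field
-/

set_option autoImplicit false

namespace Pool.Agent.Q112.QCI

open Matrix

universe u

section base

variable {K : Type u} [Field K] {L : Type u} [Field L] [Algebra K L] {n : ℕ} {ι : Type}
  [Fintype ι] [DecidableEq ι]

/-- a functional commutes with multiplication by matrices over the small field -/
theorem map_mul_left (π : L →ₗ[K] K) (Y : Matrix ι ι K) (Z : Matrix ι ι L) :
    (Y.map (algebraMap K L) * Z).map π = Y * Z.map π := by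
  ext a b
  simp only [Matrix.map_apply, Matrix.mul_apply, map_sum]
  apply Finset.sum_congr rfl
  intro e _
  rw [← Algebra.smul_def, map_smul, smul_eq_mul]

theorem map_mul_right (π : L →ₗ[K] K) (Y : Matrix ι ι K) (Z : Matrix ι ι L) :
    (Z * Y.map (algebraMap K L)).map π = Z.map π * Y := by
  ext a b
  simp only [Matrix.map_apply, Matrix.mul_apply, map_sum]
  apply Finset.sum_congr rfl
  intro e _
  rw [mul_comm, ← Algebra.smul_def, map_smul, smul_eq_mul, mul_comm]

theorem map_pow_alg (Y : Matrix ι ι K) (p : ℕ) :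
    (Y.map (algebraMap K L)) ^ p = (Y ^ p).map (algebraMap K L) := by
  exact ((algebraMap K L).mapMatrix.map_pow Y p).symm

theorem map_mul_alg (Y Z : Matrix ι ι K) :
    Y.map (algebraMap K L) * Z.map (algebraMap K L) = (Y * Z).map (algebraMap K L) :=
  (Matrix.map_mul).symm

theorem map_smul_alg (π : L →ₗ[K] K) (c : K) (Z : Matrix ι ι L) :
    (algebraMap K L c • Z).map π = c • Z.map π := by
  ext a b
  simp only [Matrix.map_apply, Matrix.smul_apply, smul_eq_mul]
  rw [← Algebra.smul_def, map_smul, smul_eq_mul]

theorem map_nrm (π : L →ₗ[K] K) (m : ℕ) (Y : Matrix ι ι K) (Z : Matrix ι ι L) :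
    (nrm m (Y.map (algebraMap K L)) Z).map π = nrm m Y (Z.map π) := by
  unfold nrm
  have : ∀ s : Finset ℕ, (∑ p ∈ s, (Y.map (algebraMap K L)) ^ p * Z *
      (Y.map (algebraMap K L)) ^ (m - 1 - p)).map π = ∑ p ∈ s, Y ^ p * Z.map π * Y ^ (m - 1 - p) := by
    intro s
    classical
    induction s using Finset.induction_on with
    | empty =>
      ext a b
      simp
    | insert p s hp ih =>
      rw [Finset.sum_insert hp, Finset.sum_insert hp, ← ih, map_pow_alg, map_pow_alg]
      rw [Matrix.map_add _ (map_add π), map_mul_right, map_mul_left]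
  exact this _

theorem quasi_map {a : Fin n → ℕ} {c : Fin n → Fin n → K} {X : Fin n → Matrix ι ι K}
    (h : Quasi a c X) : Quasi a (fun i j => algebraMap K L (c i j))
      (fun i => (X i).map (algebraMap K L)) where
  pow i := by
    rw [map_pow_alg, h.pow i]
    ext; simp
  comm i j hij := by
    have e : ∀ (r : K) (M : Matrix ι ι K), (r • M).map (algebraMap K L) =
        algebraMap K L r • M.map (algebraMap K L) := by
      intro r M
      ext a b
      simp
    change (X i).map (algebraMap K L) * (X j).map (algebraMap K L) =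
      algebraMap K L (c i j) • ((X j).map (algebraMap K L) * (X i).map (algebraMap K L))
    rw [map_mul_alg (X i) (X j), map_mul_alg (X j) (X i), h.comm i j hij, e]

theorem rigid_map {a : Fin n → ℕ} {c : Fin n → Fin n → K} {X : Fin n → Matrix ι ι K}
    (h : Rigid a c X) : Rigid a (fun i j => algebraMap K L (c i j))
      (fun i => (X i).map (algebraMap K L)) := by
  classical
  intro φ h1 h2
  let b := Module.Basis.ofVectorSpace K L
  have key : ∀ t, ∃ g : Matrix ι ι K, ∀ i, (φ i).map (b.coord t) = g * X i - X i * g := by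
    intro t
    apply h
    · intro i
      rw [← map_nrm, h1 i]
      ext; simp
    · intro i j hij
      rw [← map_mul_right, ← map_mul_left, ← Matrix.map_add _ (map_add (b.coord t)), h2 i j hij,
        map_smul_alg, Matrix.map_add _ (map_add (b.coord t)), map_mul_right, map_mul_left]
  choose g hg using key
  let S : Finset _ := Finset.univ.biUnion fun i : Fin n => Finset.univ.biUnion fun x : ι =>
    Finset.univ.biUnion fun y : ι => (b.repr (φ i x y)).support
  refine ⟨∑ t ∈ S, b t • (g t).map (algebraMap K L), fun i => ?_⟩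
  rw [Finset.sum_mul, Finset.mul_sum, ← Finset.sum_sub_distrib]
  have e : ∀ t ∈ S, (b t • (g t).map (algebraMap K L)) * (X i).map (algebraMap K L) -
      (X i).map (algebraMap K L) * (b t • (g t).map (algebraMap K L)) =
      b t • ((φ i).map (b.coord t)).map (algebraMap K L) := by
    intro t _
    rw [smul_mul_assoc, mul_smul_comm, map_mul_alg, map_mul_alg, ← smul_sub, hg t i,
      Matrix.map_sub _ (map_sub (algebraMap K L))]
  rw [Finset.sum_congr rfl e]
  ext x y
  rw [Matrix.sum_apply]
  have e2 : φ i x y = ∑ t ∈ S, b.repr (φ i x y) t • b t := by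
    conv_lhs => rw [← b.linearCombination_repr (φ i x y)]
    rw [Finsupp.linearCombination_apply]
    apply Finsupp.sum_of_support_subset
    · intro t ht
      simp only [S, Finset.mem_biUnion, Finset.mem_univ, true_and]
      exact ⟨i, x, y, ht⟩
    · intro t _
      simp
  rw [e2]
  apply Finset.sum_congr rfl
  intro t _
  simp only [Matrix.smul_apply, Matrix.map_apply, smul_eq_mul]
  rw [Algebra.smul_def, mul_comm]
  rfl

end base

section surj

variable {L : Type u} [Field L] {E : Type u} [Ring E] [Algebra L E] [FiniteDimensional L E] {n : ℕ}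

theorem nrm_mul_left (m : ℕ) (x g F : E) (h : F * x = x * F) : nrm m x (F * g) = F * nrm m x g := by
  unfold nrm
  rw [Finset.mul_sum]
  apply Finset.sum_congr rfl
  intro p _
  have hc : Commute F (x ^ p) := (show Commute F x from h).pow_right p
  rw [← mul_assoc, ← hc.eq]
  noncomm_ring

theorem nrm_comm (m : ℕ) (x g : E) (hx : x ^ m = 0) (hm : 1 ≤ m) : x * nrm m x g = nrm m x g * x := by
  unfold nrm
  obtain ⟨r, rfl⟩ : ∃ r, m = r + 1 := ⟨m - 1, by omega⟩
  have e1 : x * ∑ p ∈ Finset.range (r + 1), x ^ p * g * x ^ (r + 1 - 1 - p) =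
      ∑ p ∈ Finset.range (r + 1), x ^ (p + 1) * g * x ^ (r + 1 - (p + 1)) := by
    rw [Finset.mul_sum]
    apply Finset.sum_congr rfl
    intro p hp
    rw [Finset.mem_range] at hp
    rw [pow_succ', show r + 1 - 1 - p = r + 1 - (p + 1) by omega]
    noncomm_ring
  have e2 : (∑ p ∈ Finset.range (r + 1), x ^ p * g * x ^ (r + 1 - 1 - p)) * x =
      ∑ p ∈ Finset.range (r + 1), x ^ p * g * x ^ (r + 1 - p) := by
    rw [Finset.sum_mul]
    apply Finset.sum_congr rfl
    intro p hp
    rw [Finset.mem_range] at hp
    rw [show r + 1 - p = (r + 1 - 1 - p) + 1 by omega, pow_succ]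
    noncomm_ring
  rw [e1, e2, Finset.sum_range_succ, Finset.sum_range_succ' (n := r)]
  simp [hx]

theorem nrm_ad (m : ℕ) (x h : E) (hx : x ^ m = 0) (hm : 1 ≤ m) : nrm m x (h * x - x * h) = 0 := by
  unfold nrm
  obtain ⟨r, rfl⟩ : ∃ r, m = r + 1 := ⟨m - 1, by omega⟩
  have e : ∀ p ∈ Finset.range (r + 1), x ^ p * (h * x - x * h) * x ^ (r + 1 - 1 - p) =
      x ^ p * h * x ^ (r + 1 - p) - x ^ (p + 1) * h * x ^ (r + 1 - (p + 1)) := by
    intro p hp
    rw [Finset.mem_range] at hp
    rw [show r + 1 - p = (r + 1 - 1 - p) + 1 by omega, show r + 1 - (p + 1) = r + 1 - 1 - p by omega,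
      pow_succ', pow_succ]
    noncomm_ring
  rw [Finset.sum_congr rfl e, Finset.sum_range_sub' (fun p => x ^ p * h * x ^ (r + 1 - p))]
  simp [hx]

/-- rank-nullity for the restriction to a subspace -/
theorem finrank_map_add (f : E →ₗ[L] E) (S : Submodule L E) :
    Module.finrank L (S.map f) + Module.finrank L (S ⊓ LinearMap.ker f : Submodule L E) =
      Module.finrank L S := by
  have h := LinearMap.finrank_range_add_finrank_ker (f.domRestrict S)
  have e1 : LinearMap.range (f.domRestrict S) = S.map f := by
    rw [LinearMap.range_domRestrict]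
  have e2 : Module.finrank L (LinearMap.ker (f.domRestrict S)) =
      Module.finrank L (S ⊓ LinearMap.ker f : Submodule L E) := by
    have : (LinearMap.ker (f.domRestrict S)).map S.subtype = S ⊓ LinearMap.ker f := by
      ext x
      simp only [Submodule.mem_map, LinearMap.mem_ker, Submodule.mem_inf, Submodule.subtype_apply]
      constructor
      · rintro ⟨y, hy, rfl⟩
        exact ⟨y.2, hy⟩
      · rintro ⟨h1, h2⟩
        exact ⟨⟨x, h1⟩, h2, rfl⟩
    rw [← this]
    exact (Submodule.finrank_map_subtype_eq _ _).symm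
  rw [← h, e1, e2]

end surj

end Pool.Agent.Q112.QCI
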