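import Pool.Agent.Q112.QCI.Lift

/-!
# Passing to a big field
-/

set_option autoImplicit false

namespace Pool.Agent.Q112.QCI

open Matrix PowerSeries

universe u

/-- the big field -/
abbrev Big (K : Type u) [Field K] : Type u := AlgebraicClosure (FractionRing (PowerSeries K))

variable {K : Type u} [Field K] {n : ℕ} {ι : Type} [Fintype ι] [DecidableEq ι]

/-- the embedding of power series -/
noncomputable def emb (K : Type u) [Field K] : PowerSeries K →+* Big K :=
  (algebraMap (FractionRing (PowerSeries K)) (Big K)).comp
    (algebraMap (PowerSeries K) (FractionRing (PowerSeries K)))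

theorem emb_injective : Function.Injective (emb K) :=
  (FaithfulSMul.algebraMap_injective (FractionRing (PowerSeries K)) (Big K)).comp
    (IsFractionRing.injective (PowerSeries K) (FractionRing (PowerSeries K)))

theorem emb_C (x : K) : emb K (PowerSeries.C x) = algebraMap K (Big K) x := by
  rw [IsScalarTower.algebraMap_apply K (FractionRing (PowerSeries K)) (Big K),
    IsScalarTower.algebraMap_apply K (PowerSeries K) (FractionRing (PowerSeries K))]
  rfl

/-- the twisting parameter -/
noncomputable def uu (K : Type u) [Field K] : Big K := emb K (1 + PowerSeries.X)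

theorem one_add_X_pow (k : ℕ) (hk : k ≠ 0) : (1 + PowerSeries.X : PowerSeries K) ^ k ≠ 1 := by
  intro h
  have h1 : (((Polynomial.X + Polynomial.C 1 : Polynomial K) ^ k : Polynomial K) : PowerSeries K) =
      ((1 : Polynomial K) : PowerSeries K) := by
    rw [Polynomial.coe_pow, Polynomial.coe_add, Polynomial.coe_X, Polynomial.coe_C,
      Polynomial.coe_one, map_one, add_comm]
    exact h
  have h2 := Polynomial.coe_injective K h1
  have h3 := congrArg Polynomial.natDegree h2
  rw [Polynomial.natDegree_pow, Polynomial.natDegree_X_add_C, Polynomial.natDegree_one] at h3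
  omega

theorem uu_ne_zero : uu K ≠ 0 := by
  intro h
  have : (1 + PowerSeries.X : PowerSeries K) = 0 := emb_injective (by rw [map_zero]; exact h)
  have h2 := congrArg PowerSeries.constantCoeff this
  simp at h2

theorem uu_zpow (k : ℤ) (h : uu K ^ k = 1) : k = 0 := by
  have key : ∀ m : ℕ, uu K ^ m = 1 → m = 0 := by
    intro m hm
    by_contra hne
    apply one_add_X_pow (K := K) m hne
    apply emb_injective
    rw [map_pow, map_one]
    exact hm
  rcases Int.eq_nat_or_neg k with ⟨m, rfl | rfl⟩
  · rw [zpow_natCast] at h
    rw [key m h]; rfl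
  · rw [_root_.zpow_neg, zpow_natCast, inv_eq_one] at h
    rw [key m h]; rfl

/-- the matrix over the big field built from a sequence of lifts -/
theorem exists_twist (X : Fin n → Matrix ι ι K) (j : Fin n) (D : ℕ → Matrix ι ι K) (h0 : D 0 = 1)
    (hc : ∀ r k, k ≠ j → D r * X k = X k * D r)
    (hs : ∀ r, D (r + 1) * X j = X j * (D (r + 1) + D r)) :
    ∃ f : Matrix ι ι (Big K), IsUnit f ∧
      f * (X j).map (algebraMap K (Big K)) = uu K • ((X j).map (algebraMap K (Big K)) * f) ∧
      ∀ k, k ≠ j → f * (X k).map (algebraMap K (Big K)) = (X k).map (algebraMap K (Big K)) * f := by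
  classical
  let f0 : Matrix ι ι (PowerSeries K) := Matrix.of fun a b => PowerSeries.mk fun r => D r a b
  have hmap : ∀ Y : Matrix ι ι K, Y.map (algebraMap K (Big K)) =
      (Y.map (PowerSeries.C (R := K))).map (emb K) := by
    intro Y
    ext a b
    simp [emb_C]
  have l1 : ∀ (Y : Matrix ι ι K) (r : ℕ) (a b : ι),
      PowerSeries.coeff r ((f0 * Y.map (PowerSeries.C (R := K))) a b) = (D r * Y) a b := by
    intro Y r a b
    rw [Matrix.mul_apply, map_sum, Matrix.mul_apply]
    apply Finset.sum_congr rfl
    intro e _
    simp [f0, PowerSeries.coeff_mul_C]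
  have l2 : ∀ (Y : Matrix ι ι K) (r : ℕ) (a b : ι),
      PowerSeries.coeff r ((Y.map (PowerSeries.C (R := K)) * f0) a b) = (Y * D r) a b := by
    intro Y r a b
    rw [Matrix.mul_apply, map_sum, Matrix.mul_apply]
    apply Finset.sum_congr rfl
    intro e _
    simp [f0, PowerSeries.coeff_C_mul]
  refine ⟨f0.map (emb K), ?_, ?_, ?_⟩
  · rw [Matrix.isUnit_iff_isUnit_det]
    have : (f0.map (emb K)).det = emb K f0.det := by
      rw [RingHom.map_det]
      rfl
    rw [this]
    apply IsUnit.map
    rw [PowerSeries.isUnit_iff_constantCoeff, RingHom.map_det]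
    have e : (PowerSeries.constantCoeff (R := K)).mapMatrix f0 = 1 := by
      ext a b
      simp [f0, ← PowerSeries.coeff_zero_eq_constantCoeff_apply, h0]
    rw [e, Matrix.det_one]
    exact isUnit_one
  · rw [hmap (X j), ← Matrix.map_mul, ← Matrix.map_mul]
    have e : f0 * (X j).map (PowerSeries.C (R := K)) =
        (1 + PowerSeries.X : PowerSeries K) • ((X j).map (PowerSeries.C (R := K)) * f0) := by
      ext a b r
      rw [l1, Matrix.smul_apply, smul_eq_mul, add_mul, one_mul, map_add, l2]
      cases r with
      | zero => simp [h0]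
      | succ r =>
        rw [PowerSeries.coeff_succ_X_mul, l2, hs, mul_add, Matrix.add_apply]
    rw [e]
    have e2 : ∀ Y : Matrix ι ι (PowerSeries K),
        ((1 + PowerSeries.X : PowerSeries K) • Y).map (emb K) = uu K • Y.map (emb K) := by
      intro Y
      ext a b
      simp only [Matrix.map_apply, Matrix.smul_apply, smul_eq_mul, map_mul]
      rfl
    rw [e2]
  · intro k hk
    rw [hmap (X k), ← Matrix.map_mul, ← Matrix.map_mul]
    congr 1
    ext a b r
    rw [l1, l2, hc r k hk]

end Pool.Agent.Q112.QCI
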