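import Pool.Agent.Q112.QCI.Surj

/-!
# The trace identity over an arbitrary field
-/

set_option autoImplicit false

namespace Pool.Agent.Q112.QCI

open Matrix

universe u

variable {K : Type u} [Field K] {n : ℕ} {ι : Type} [Fintype ι] [DecidableEq ι]

theorem exists_twist_matrix {L : Type u} [Field L] [IsAlgClosed L] (f Y : Matrix ι ι L) (hf : IsUnit f)
    (w s : L) (hw0 : w ≠ 0) (hs : s ≠ 0) (hw : ∀ k : ℤ, w ^ k = 1 → k = 0)
    (hY : f * Y = w • (Y * f)) :
    ∃ F : Matrix ι ι L, IsUnit F ∧ F * Y = s • (Y * F) ∧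
      ∀ Z : Matrix ι ι L, f * Z = Z * f → F * Z = Z * F := by
  let e := (Matrix.toLinAlgEquiv' : Matrix ι ι L ≃ₐ[L] ((ι → L) →ₗ[L] (ι → L)))
  obtain ⟨F, h1, h2, h3⟩ := exists_twist_end (e f) (e Y) (hf.map e) w s hw0 hs hw (by
    rw [← map_mul, hY, map_smul, map_mul])
  refine ⟨e.symm F, h1.map e.symm, ?_, ?_⟩
  · apply e.injective
    rw [map_mul, e.apply_symm_apply, h2, map_smul, map_mul, e.apply_symm_apply]
  · intro Z hZ
    apply e.injective
    rw [map_mul, e.apply_symm_apply, map_mul, e.apply_symm_apply]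
    apply h3
    rw [← map_mul, hZ, map_mul]

theorem core {a : Fin n → ℕ} {c : Fin n → Fin n → K} {X : Fin n → Matrix ι ι K}
    (hq : Quasi a c X) (hr : Rigid a c X) (hcc : ∀ i j, i ≠ j → c i j * c j i = 1)
    (ha : ∀ i, 1 ≤ a i) (i : Fin n) :
    ∃ g : Matrix ι ι K, (∀ j, j ≠ i → X j * g = (c i j) ^ (a i - 1) • (g * X j)) ∧
      nrm (a i) (X i) g = 1 := by
  classical
  let X' : Fin n → Matrix ι ι (Big K) := fun j => (X j).map (algebraMap K (Big K))
  let c' : Fin n → Fin n → Big K := fun i j => algebraMap K (Big K) (c i j)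
  have hq' : Quasi a c' X' := quasi_map hq
  have hr' : Rigid a c' X' := rigid_map hr
  have c0 : ∀ j, j ≠ i → c' i j ≠ 0 := by
    intro j hj h
    have h2 : c i j = 0 := by
      apply (FaithfulSMul.algebraMap_injective K (Big K))
      rw [map_zero]
      exact h
    have := hcc i j hj.symm
    rw [h2, zero_mul] at this
    exact zero_ne_one this
  have tw : ∀ j, j ≠ i → ∃ F : Matrix ι ι (Big K), IsUnit F ∧
      F * X' j = c' i j • (X' j * F) ∧ ∀ k, k ≠ j → F * X' k = X' k * F := by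
    intro j hj
    obtain ⟨D, h0, h1, h2⟩ := exists_seq hq hr j
    obtain ⟨f, hf, h3, h4⟩ := exists_twist X j D h0 h1 h2
    obtain ⟨F, h5, h6, h7⟩ := exists_twist_matrix f (X' j) hf (uu K) (c' i j) uu_ne_zero (c0 j hj)
      uu_zpow h3
    exact ⟨F, h5, h6, fun k hk => h7 _ (h4 k hk)⟩
  have comb : ∀ T : Finset (Fin n), i ∉ T → ∃ F : Matrix ι ι (Big K), IsUnit F ∧
      (∀ j ∈ T, F * X' j = c' i j • (X' j * F)) ∧ ∀ k, k ∉ T → F * X' k = X' k * F := by
    intro T
    induction T using Finset.induction_on with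
    | empty =>
      intro _
      exact ⟨1, isUnit_one, by simp, by simp⟩
    | insert j T hj ih =>
      intro hi
      rw [Finset.mem_insert, not_or] at hi
      obtain ⟨F, h1, h2, h3⟩ := ih hi.2
      obtain ⟨G, g1, g2, g3⟩ := tw j (fun h => hi.1 h.symm)
      refine ⟨G * F, g1.mul h1, ?_, ?_⟩
      · intro k hk
        rw [Finset.mem_insert] at hk
        rcases hk with rfl | hk
        · rw [mul_assoc, h3 k hj, ← mul_assoc, g2, smul_mul_assoc, mul_assoc]
        · have hkj : k ≠ j := fun h => hj (h ▸ hk)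
          rw [mul_assoc, h2 k hk, mul_smul_comm, ← mul_assoc, g3 k hkj, mul_assoc]
      · intro k hk
        rw [Finset.mem_insert, not_or] at hk
        rw [mul_assoc, h3 k hk.2, ← mul_assoc, g3 k hk.1, mul_assoc]
  obtain ⟨F, hF, hF1, hF2⟩ := comb (Finset.univ.erase i) (by simp)
  obtain ⟨F, rfl⟩ := hF
  obtain ⟨g, hg1, hg2⟩ := surj hq' hr' (by
    intro k j hkj
    change algebraMap K (Big K) (c k j) * algebraMap K (Big K) (c j k) = 1
    rw [← map_mul, hcc k j hkj, map_one]) i (ha i) F (fun j hj => hF1 j (by simp [hj]))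
    (hF2 i (by simp))
  obtain ⟨π, hπ⟩ := LinearMap.exists_leftInverse_of_injective (Algebra.linearMap K (Big K))
    (LinearMap.ker_eq_bot.2 (FaithfulSMul.algebraMap_injective K (Big K)))
  have hπ1 : π 1 = 1 := by
    have := LinearMap.congr_fun hπ 1
    simpa using this
  refine ⟨g.map π, ?_, ?_⟩
  · intro j hj
    rw [← map_mul_left, ← map_mul_right, ← map_smul_alg]
    congr 1
    have := hg1 j hj
    rw [map_pow]
    exact this
  · rw [← map_nrm]
    have e : nrm (a i) ((X i).map (algebraMap K (Big K))) g = 1 := hg2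
    rw [e]
    exact Matrix.map_one π (map_zero π) hπ1

end Pool.Agent.Q112.QCI
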