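import Pool.Agent.Q112.QCI.Core

/-!
# Rigid modules over algebras generated by quasi-commuting nilpotent elements are projective
-/

set_option autoImplicit false

namespace Pool.Agent.Q112.QCI

open CategoryTheory Abelian

universe u

/-- if `Ext^1(M, M) = 0` then every self-extension of `M` splits -/
theorem split_of_ext {R : Type u} [Ring R] {M E : Type u} [AddCommGroup M] [Module R M]
    [AddCommGroup E] [Module R E] (f : M →ₗ[R] E) (g : E →ₗ[R] M) (hf : Function.Injective f)
    (hg : Function.Surjective g) (hfg : Function.Exact f g)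
    (hE : Subsingleton (Ext (ModuleCat.of R M) (ModuleCat.of R M) 1)) :
    ∃ s : M →ₗ[R] E, g ∘ₗ s = LinearMap.id := by
  let S : ShortComplex (ModuleCat.{u} R) :=
    { f := ModuleCat.ofHom f
      g := ModuleCat.ofHom g
      zero := by
        ext x
        exact (hfg _).2 ⟨x, rfl⟩ }
  have hS : S.ShortExact :=
    { exact := (ShortComplex.ShortExact.moduleCat_exact_iff_function_exact _).mpr hfg
      mono_f := (ModuleCat.mono_iff_injective _).mpr hf
      epi_g := (ModuleCat.epi_iff_surjective _).mpr hg }
  obtain ⟨x₂, hx₂⟩ := Ext.covariant_sequence_exact₃ (ModuleCat.of R M) hS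
    (Ext.mk₀ (𝟙 (ModuleCat.of R M))) (zero_add 1) (Subsingleton.elim _ _)
  obtain ⟨s, rfl⟩ := Ext.addEquiv₀.symm.surjective x₂
  have e : Ext.addEquiv₀.symm s = Ext.mk₀ s := rfl
  rw [e, Ext.mk₀_comp_mk₀] at hx₂
  have e2 : s ≫ S.g = 𝟙 (ModuleCat.of R M) := Ext.addEquiv₀.symm.injective hx₂
  refine ⟨s.hom, ?_⟩
  have e3 := congrArg ModuleCat.Hom.hom e2
  exact e3

/-! ### Commuting with generators -/

section gen

variable {K S : Type u} [Field K] [Ring S] [Algebra K S] {n : ℕ}

theorem lin_of_gen (s : Fin n → S) (hs : Algebra.adjoin K (Set.range s) = ⊤) {M N : Type u}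
    [AddCommGroup M] [Module K M] [Module S M] [IsScalarTower K S M]
    [AddCommGroup N] [Module K N] [Module S N] [IsScalarTower K S N]
    (ψ : M →ₗ[K] N) (hψ : ∀ i m, ψ (s i • m) = s i • ψ m) :
    ∃ ψ' : M →ₗ[S] N, ∀ m, ψ' m = ψ m := by
  refine ⟨{ toFun := ψ, map_add' := ψ.map_add, map_smul' := ?_ }, fun _ => rfl⟩
  intro r
  have hr : r ∈ Algebra.adjoin K (Set.range s) := hs ▸ Algebra.mem_top
  induction hr using Algebra.adjoin_induction with
  | mem x hx =>
    obtain ⟨i, rfl⟩ := hx
    intro m
    exact hψ i m
  | algebraMap k =>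
    intro m
    change ψ (algebraMap K S k • m) = algebraMap K S k • ψ m
    rw [algebraMap_smul, algebraMap_smul, map_smul]
  | add x y _ _ hx hy =>
    intro m
    change ψ ((x + y) • m) = (x + y) • ψ m
    rw [add_smul, map_add, add_smul]
    exact congrArg₂ _ (hx m) (hy m)
  | mul x y _ _ hx hy =>
    intro m
    change ψ ((x * y) • m) = (x * y) • ψ m
    rw [mul_smul, mul_smul]
    exact (hx (y • m)).trans (congrArg _ (hy m))

variable (K) in
/-- the operator of an element -/
def opr (M : Type u) [AddCommGroup M] [Module K M] [Module S M] [IsScalarTower K S M] (x : S) :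
    Module.End K M where
  toFun m := x • m
  map_add' := smul_add x
  map_smul' k m := by
    change x • k • m = k • x • m
    rw [← algebraMap_smul S k m, ← mul_smul, ← Algebra.commutes, mul_smul, algebraMap_smul]

variable {M : Type u} [AddCommGroup M] [Module K M] [Module S M] [IsScalarTower K S M]

theorem opr_apply (x : S) (m : M) : opr K M x m = x • m := rfl

theorem opr_pow (x : S) (p : ℕ) (m : M) : (opr K M x ^ p) m = x ^ p • m := by
  induction p generalizing m with
  | zero => simp
  | succ p ih =>
    rw [pow_succ, Module.End.mul_apply, ih, opr_apply, ← mul_smul, ← pow_succ]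

theorem opr_mul (x y : S) : opr K M (x * y) = opr K M x * opr K M y := by
  ext m
  exact mul_smul x y m

theorem opr_quasi {a : Fin n → ℕ} {c : Fin n → Fin n → K} {s : Fin n → S} (h : Quasi a c s) :
    Quasi a c (fun i => opr K M (s i)) where
  pow i := by
    ext m
    rw [opr_pow, h.pow i, zero_smul]
    rfl
  comm i j hij := by
    rw [← opr_mul, ← opr_mul, h.comm i j hij]
    ext m
    change (c i j • (s j * s i)) • m = c i j • (s j * s i) • m
    rw [smul_assoc]

/-- **Projectivity from the trace identities.** -/
theorem proj_of_trace {a : Fin n → ℕ} {c : Fin n → Fin n → K} (s : Fin n → S)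
    (hs : Algebra.adjoin K (Set.range s) = ⊤) (hq : Quasi a c s)
    (hcc : ∀ i j, i ≠ j → c i j * c j i = 1) [FiniteDimensional K M] (g : Fin n → Module.End K M)
    (hg : ∀ i j, j ≠ i → opr K M (s j) * g i = (c i j) ^ (a i - 1) • (g i * opr K M (s j)))
    (hN : ∀ i, nrm (a i) (opr K M (s i)) (g i) = 1) : Module.Projective S M := by
  classical
  let b := Module.finBasis K M
  let F := Fin (Module.finrank K M) → S
  have c0 : ∀ i j, i ≠ j → c i j ≠ 0 := by
    intro i j hij h
    have := hcc i j hij
    rw [h, zero_mul] at this
    exact zero_ne_one this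
  let P : F →ₗ[S] M := Fintype.linearCombination S b
  have key : ∀ T : Finset (Fin n), ∃ ψ : M →ₗ[K] F, (∀ j ∈ T, ∀ m, ψ (s j • m) = s j • ψ m) ∧
      ∀ m, P (ψ m) = m := by
    intro T
    induction T using Finset.induction_on with
    | empty =>
      refine ⟨LinearMap.pi fun i => (Algebra.linearMap K S) ∘ₗ (b.coord i), by simp, ?_⟩
      intro m
      change Fintype.linearCombination S b _ = m
      rw [Fintype.linearCombination_apply]
      conv_rhs => rw [← b.sum_repr m]
      apply Finset.sum_congr rfl
      intro i _
      change algebraMap K S (b.repr m _) • b _ = _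
      rw [algebraMap_smul]
    | insert k T hk ih =>
      obtain ⟨ψ, h1, h2⟩ := ih
      refine ⟨∑ p ∈ Finset.range (a k), (opr K F (s k) ^ p) ∘ₗ ψ ∘ₗ
        (g k * (opr K M (s k)) ^ (a k - 1 - p)), ?_, ?_⟩
      · intro j hj m
        rw [Finset.mem_insert] at hj
        by_cases hjk : j = k
        · subst hjk
          obtain ⟨r, hr⟩ : ∃ r, a j = r + 1 ∨ a j = 0 := ⟨a j - 1, by omega⟩
          rcases hr with hr | hr
          · rw [LinearMap.sum_apply, LinearMap.sum_apply, Finset.smul_sum, hr]
            have e1 : ∀ p ∈ Finset.range (r + 1), ((opr K F (s j) ^ p) ∘ₗ ψ ∘ₗ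
                (g j * (opr K M (s j)) ^ (r + 1 - 1 - p))) (s j • m) =
                s j ^ p • ψ (g j (s j ^ (r + 1 - p) • m)) := by
              intro p hp
              rw [Finset.mem_range] at hp
              rw [LinearMap.comp_apply, LinearMap.comp_apply, Module.End.mul_apply, opr_pow, opr_pow,
                ← mul_smul, ← pow_succ]
              rw [show r + 1 - 1 - p + 1 = r + 1 - p by omega]
            have e2 : ∀ p ∈ Finset.range (r + 1), s j • ((opr K F (s j) ^ p) ∘ₗ ψ ∘ₗ
                (g j * (opr K M (s j)) ^ (r + 1 - 1 - p))) m =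
                s j ^ (p + 1) • ψ (g j (s j ^ (r + 1 - (p + 1)) • m)) := by
              intro p hp
              rw [Finset.mem_range] at hp
              rw [LinearMap.comp_apply, LinearMap.comp_apply, Module.End.mul_apply, opr_pow, opr_pow,
                ← mul_smul, ← pow_succ']
              rw [show r + 1 - 1 - p = r + 1 - (p + 1) by omega]
            rw [Finset.sum_congr rfl e1, Finset.sum_congr rfl e2, Finset.sum_range_succ' (n := r),
              Finset.sum_range_succ]
            have hp0 : s j ^ (r + 1) = 0 := by rw [← hr]; exact hq.pow j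
            simp [hp0]
          · have : (1 : Module.End K M) = 0 := by
              rw [← hN j, hr]; rfl
            have hm : ∀ m : M, m = 0 := fun m => by
              have := LinearMap.congr_fun this m
              simpa using this
            rw [hm m, smul_zero, map_zero, smul_zero]
        · have hjT : j ∈ T := by
            rcases hj with h | h
            · exact absurd h hjk
            · exact h
          rw [LinearMap.sum_apply, LinearMap.sum_apply, Finset.smul_sum]
          apply Finset.sum_congr rfl
          intro p hp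
          rw [Finset.mem_range] at hp
          rw [LinearMap.comp_apply, LinearMap.comp_apply, Module.End.mul_apply, opr_pow, opr_pow]
          rw [LinearMap.comp_apply, LinearMap.comp_apply, Module.End.mul_apply, opr_pow, opr_pow]
          have hkj : k ≠ j := fun h => hjk h.symm
          have e1 : s k ^ (a k - 1 - p) * s j = c k j ^ (a k - 1 - p) • (s j * s k ^ (a k - 1 - p)) :=
            qpow_left _ _ _ (hq.comm k j hkj) _
          have e2 : s k ^ p * s j = c k j ^ p • (s j * s k ^ p) :=
            qpow_left _ _ _ (hq.comm k j hkj) _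
          have e3 : ∀ v : M, s j • g k v = (c k j) ^ (a k - 1) • g k (s j • v) := by
            intro v
            have := LinearMap.congr_fun (hg k j hjk) v
            exact this
          have e4 : ∀ v : M, g k (s j • v) = ((c k j) ^ (a k - 1))⁻¹ • s j • g k v := by
            intro v
            rw [e3, smul_smul, inv_mul_cancel₀ (pow_ne_zero _ (c0 k j hkj)), one_smul]
          rw [← mul_smul, e1, smul_assoc, map_smul, map_smul, mul_smul, e4, map_smul, h1 j hjT,
            smul_comm (s k ^ p), smul_comm (s k ^ p), ← mul_smul (s k ^ p), e2, smul_assoc,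
            mul_smul (s j), smul_smul, smul_smul]
          have e5 : c k j ^ (a k - 1 - p) * ((c k j) ^ (a k - 1))⁻¹ * c k j ^ p = 1 := by
            rw [mul_right_comm, ← pow_add, show a k - 1 - p + p = a k - 1 by omega,
              mul_inv_cancel₀ (pow_ne_zero _ (c0 k j hkj))]
          rw [e5, one_smul]
      · intro m
        rw [LinearMap.sum_apply, map_sum]
        have e : ∀ p ∈ Finset.range (a k), P (((opr K F (s k) ^ p) ∘ₗ ψ ∘ₗ
            (g k * (opr K M (s k)) ^ (a k - 1 - p))) m) =
            (opr K M (s k) ^ p * g k * opr K M (s k) ^ (a k - 1 - p)) m := by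
          intro p _
          rw [LinearMap.comp_apply, LinearMap.comp_apply, opr_pow, map_smul, h2, mul_assoc,
            Module.End.mul_apply (opr K M (s k) ^ p), opr_pow]
        rw [Finset.sum_congr rfl e, ← LinearMap.sum_apply]
        have := LinearMap.congr_fun (hN k) m
        exact this
  obtain ⟨ψ, h1, h2⟩ := key Finset.univ
  obtain ⟨ψ', hψ'⟩ := lin_of_gen s hs ψ (fun i m => h1 i (Finset.mem_univ _) m)
  refine Module.Projective.of_split ψ' P ?_
  ext m
  rw [LinearMap.comp_apply, hψ', h2]
  rfl

end gen

end Pool.Agent.Q112.QCI
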