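import Pool.Agent.Q112.QCI.Main
import Pool.Agent.Q112.Rig.Defs

/-!
# Projective modules over algebras generated by quasi-commuting nilpotent elements are free
-/

set_option autoImplicit false

namespace Pool.Agent.Q112.QCI

universe u

section killed

variable {K : Type u} [Field K] {n : ℕ} {a : Fin n → ℕ} {c : Fin n → Fin n → K}

theorem qpow_right {E : Type u} [Ring E] [Algebra K E] (x y : E) (c : K)
    (h : x * y = c • (y * x)) (m : ℕ) : x * y ^ m = c ^ m • (y ^ m * x) := by
  induction m with
  | zero => simp
  | succ m ih =>
    rw [pow_succ', ← mul_assoc, h, smul_mul_assoc, mul_assoc, ih, mul_smul_comm, smul_smul,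
      ← pow_succ', mul_assoc]

/-- a common kernel vector -/
theorem exists_killed {V : Type u} [AddCommGroup V] [Module K V] [Nontrivial V]
    {Y : Fin n → Module.End K V} (hY : Quasi a c Y) : ∃ v : V, v ≠ 0 ∧ ∀ i, Y i v = 0 := by
  classical
  have key : ∀ T : Finset (Fin n), ∃ v : V, v ≠ 0 ∧ ∀ i ∈ T, Y i v = 0 := by
    intro T
    induction T using Finset.induction_on with
    | empty =>
      obtain ⟨v, hv⟩ := exists_ne (0 : V)
      exact ⟨v, hv, by simp⟩
    | insert k T hk ih =>
      obtain ⟨v, hv, h⟩ := ih
      have hex : ∃ p, (Y k ^ p) v = 0 := ⟨a k, by rw [hY.pow k]; rfl⟩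
      have hp := Nat.find_spec hex
      have hp0 : Nat.find hex ≠ 0 := by
        intro h0
        rw [h0] at hp
        exact hv (by simpa using hp)
      obtain ⟨r, hr⟩ := Nat.exists_eq_succ_of_ne_zero hp0
      have hr' : (Y k ^ r) v ≠ 0 := Nat.find_min hex (by rw [hr]; exact Nat.lt_succ_self r)
      refine ⟨(Y k ^ r) v, hr', ?_⟩
      intro i hi
      rw [Finset.mem_insert] at hi
      rcases hi with rfl | hi
      · rw [← Module.End.mul_apply, ← pow_succ', ← Nat.succ_eq_add_one, ← hr]
        exact hp
      · have hik : i ≠ k := fun h => hk (h ▸ hi)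
        rw [← Module.End.mul_apply, qpow_right _ _ _ (hY.comm i k hik), LinearMap.smul_apply,
          Module.End.mul_apply, h i hi, map_zero, smul_zero]
  obtain ⟨v, hv, h⟩ := key Finset.univ
  exact ⟨v, hv, fun i => h i (Finset.mem_univ i)⟩

/-- a common functional vanishing on all images -/
theorem exists_functional {V : Type u} [AddCommGroup V] [Module K V] [Nontrivial V]
    {Y : Fin n → Module.End K V} (hY : Quasi a c Y) :
    ∃ f : Module.Dual K V, f ≠ 0 ∧ ∀ i v, f (Y i v) = 0 := by
  have hq : Quasi a (fun i j => c j i)
      (fun i => (Module.Dual.transpose (R := K) (Y i) : Module.End K (Module.Dual K V))) :=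
    { pow := by
        intro i
        have : ∀ p : ℕ, (Module.Dual.transpose (R := K) (Y i) : Module.End K (Module.Dual K V)) ^ p =
            Module.Dual.transpose (R := K) (Y i ^ p) := by
          intro p
          induction p with
          | zero => rfl
          | succ p ih =>
            rw [pow_succ', ih, pow_succ]
            rfl
        rw [this, hY.pow i]
        exact map_zero _
      comm := by
        intro i j hij
        have e1 : ∀ i j, (Module.Dual.transpose (R := K) (Y i) : Module.End K (Module.Dual K V)) *
            Module.Dual.transpose (R := K) (Y j) = Module.Dual.transpose (R := K) (Y j * Y i) :=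
          fun _ _ => rfl
        rw [e1, e1, hY.comm j i hij.symm]
        exact map_smul _ _ _ }
  obtain ⟨f, hf, h⟩ := exists_killed hq
  exact ⟨f, hf, fun i v => LinearMap.congr_fun (h i) v⟩

end killed

section module

variable {K S : Type u} [Field K] [Ring S] [Algebra K S] {n : ℕ} {a : Fin n → ℕ}
  {c : Fin n → Fin n → K} (s : Fin n → S)

/-- `∑ s_i M` -/
def top1 (K : Type u) [Field K] [Algebra K S] (s : Fin n → S) (M : Type u) [AddCommGroup M]
    [Module K M] [Module S M] [IsScalarTower K S M] : Submodule K M :=
  ⨆ i, LinearMap.range (opr K M (s i))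

variable {s}

/-- Nakayama: if `∑ s_i M = M` then `M = 0` -/
theorem nak (hq : Quasi a c s) {M : Type u} [AddCommGroup M] [Module K M] [Module S M]
    [IsScalarTower K S M] (h : top1 K s M = ⊤) : Subsingleton M := by
  by_contra hM
  rw [not_subsingleton_iff_nontrivial] at hM
  obtain ⟨f, hf, h2⟩ := exists_functional (opr_quasi (M := M) hq)
  apply hf
  have : (⊤ : Submodule K M) ≤ LinearMap.ker f := by
    rw [← h]
    apply iSup_le
    rintro i _ ⟨m, rfl⟩
    exact h2 i m
  ext m
  exact this Submodule.mem_top

theorem smul_mem_top1 {M : Type u} [AddCommGroup M] [Module K M] [Module S M]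
    [IsScalarTower K S M] (i : Fin n) (m : M) : s i • m ∈ top1 K s M :=
  Submodule.mem_iSup_of_mem i ⟨m, rfl⟩

theorem map_top1 {M N : Type u} [AddCommGroup M] [Module K M] [Module S M] [IsScalarTower K S M]
    [AddCommGroup N] [Module K N] [Module S N] [IsScalarTower K S N] (f : M →ₗ[S] N) (m : M)
    (hm : m ∈ top1 K s M) : f m ∈ top1 K s N := by
  have hfK : ∀ (k : K) (m : M), f (k • m) = k • f m := by
    intro k m
    rw [← algebraMap_smul S k m, map_smul, algebraMap_smul]
  let fK : M →ₗ[K] N := { toFun := f, map_add' := f.map_add, map_smul' := hfK }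
  have : top1 K s M ≤ (top1 K s N).comap fK := by
    apply iSup_le
    rintro i _ ⟨x, rfl⟩
    change f (s i • x) ∈ top1 K s N
    rw [map_smul]
    exact smul_mem_top1 i _
  exact this hm

/-- every element is a scalar modulo `∑ s_i S` -/
theorem scalar_part (hs : Algebra.adjoin K (Set.range s) = ⊤) (x : S) :
    ∃ k : K, x - algebraMap K S k ∈ top1 K s S := by
  have hx : x ∈ Algebra.adjoin K (Set.range s) := hs ▸ Algebra.mem_top
  induction hx using Algebra.adjoin_induction with
  | mem x hx =>
    obtain ⟨i, rfl⟩ := hx
    refine ⟨0, ?_⟩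
    rw [map_zero, sub_zero, ← mul_one (s i)]
    exact smul_mem_top1 i (1 : S)
  | algebraMap k => exact ⟨k, by rw [sub_self]; exact Submodule.zero_mem _⟩
  | add x y _ _ hx hy =>
    obtain ⟨k, hk⟩ := hx
    obtain ⟨l, hl⟩ := hy
    refine ⟨k + l, ?_⟩
    have := Submodule.add_mem _ hk hl
    rw [map_add]
    convert this using 1
    abel
  | mul x y _ _ hx hy =>
    obtain ⟨k, hk⟩ := hx
    obtain ⟨l, hl⟩ := hy
    refine ⟨k * l, ?_⟩
    have h1 : (x - algebraMap K S k) * y ∈ top1 K s S := by
      let R : S →ₗ[S] S := LinearMap.toSpanSingleton S S y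
      have : R (x - algebraMap K S k) ∈ top1 K s S := map_top1 (K := K) R _ hk
      exact this
    have h2 : algebraMap K S k * (y - algebraMap K S l) ∈ top1 K s S := by
      rw [← Algebra.smul_def]
      exact Submodule.smul_mem _ _ hl
    have := Submodule.add_mem _ h1 h2
    rw [map_mul]
    convert this using 1
    noncomm_ring

/-- the algebra is finite-dimensional -/
theorem finite_alg (hs : Algebra.adjoin K (Set.range s) = ⊤) (hq : Quasi a c s)
    (hcc : ∀ i j, i ≠ j → c i j * c j i = 1) : Module.Finite K S := by
  classical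
  have key : ∀ T : Finset (Fin n), ∃ W : Submodule K S, FiniteDimensional K W ∧ 1 ∈ W ∧
      (∀ j ∈ T, ∀ w ∈ W, s j * w ∈ W) ∧ ∀ k, k ∉ T → ∀ w ∈ W, ∃ w' ∈ W, s k * w = w' * s k := by
    intro T
    induction T using Finset.induction_on with
    | empty =>
      refine ⟨Submodule.span K {1}, inferInstance, Submodule.mem_span_singleton_self 1, by simp, ?_⟩
      intro k _ w hw
      obtain ⟨t, rfl⟩ := Submodule.mem_span_singleton.1 hw
      exact ⟨t • 1, hw, by simp⟩
    | insert k T hk ih =>
      obtain ⟨W, hW, h1, h2, h3⟩ := ih
      let W' : Submodule K S := ⨆ p : Fin (a k), W.map (LinearMap.mulRight K (s k ^ (p : ℕ)))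
      have hle : ∀ (p : ℕ), ∀ w ∈ W, w * s k ^ p ∈ W' := by
        intro p w hw
        by_cases hp : p < a k
        · exact Submodule.mem_iSup_of_mem ⟨p, hp⟩ ⟨w, hw, rfl⟩
        · have : s k ^ p = 0 := by
            obtain ⟨d, rfl⟩ := Nat.exists_eq_add_of_le (not_lt.1 hp)
            rw [pow_add, hq.pow k, zero_mul]
          rw [this, mul_zero]
          exact Submodule.zero_mem _
      refine ⟨W', inferInstance, ?_, ?_, ?_⟩
      · have := hle 0 1 h1
        simpa using this
      · intro j hj w0 hw0
        have : W' ≤ W'.comap (LinearMap.mulLeft K (s j)) := by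
          apply iSup_le
          rintro p _ ⟨w, hw, rfl⟩
          change s j * (w * s k ^ (p : ℕ)) ∈ W'
          rw [Finset.mem_insert] at hj
          rcases hj with rfl | hj
          · obtain ⟨w', hw', e⟩ := h3 j hk w hw
            rw [← mul_assoc, e, mul_assoc, ← pow_succ']
            exact hle _ _ hw'
          · rw [← mul_assoc]
            exact hle _ _ (h2 j hj w hw)
        exact this hw0
      · intro l hl w0 hw0
        rw [Finset.mem_insert, not_or] at hl
        have : W' ≤ (W'.map (LinearMap.mulRight K (s l))).comap (LinearMap.mulLeft K (s l)) := by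
          apply iSup_le
          rintro p _ ⟨w, hw, rfl⟩
          obtain ⟨w', hw', e⟩ := h3 l hl.2 w hw
          refine ⟨c l k ^ (p : ℕ) • (w' * s k ^ (p : ℕ)), Submodule.smul_mem _ _ (hle _ _ hw'), ?_⟩
          change c l k ^ (p : ℕ) • (w' * s k ^ (p : ℕ)) * s l = s l * (w * s k ^ (p : ℕ))
          rw [← mul_assoc (s l), e, mul_assoc w' (s l), qpow_right _ _ _ (hq.comm l k hl.1),
            mul_smul_comm, smul_mul_assoc, mul_assoc]
        obtain ⟨w', hw', e⟩ := this hw0
        exact ⟨w', hw', e.symm⟩
  obtain ⟨W, hW, h1, h2, -⟩ := key Finset.univ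
  have htop : W = ⊤ := by
    rw [eq_top_iff]
    rintro x -
    have hx : x ∈ Algebra.adjoin K (Set.range s) := hs ▸ Algebra.mem_top
    have : ∀ w ∈ W, x * w ∈ W := by
      induction hx using Algebra.adjoin_induction with
      | mem x hx =>
        obtain ⟨i, rfl⟩ := hx
        exact h2 i (Finset.mem_univ i)
      | algebraMap k =>
        intro w hw
        rw [← Algebra.smul_def]
        exact Submodule.smul_mem _ _ hw
      | add x y _ _ hx hy =>
        intro w hw
        rw [add_mul]
        exact Submodule.add_mem _ (hx w hw) (hy w hw)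
      | mul x y _ _ hx hy =>
        intro w hw
        rw [mul_assoc]
        exact hx _ (hy w hw)
    have := this 1 h1
    rwa [mul_one] at this
  rw [htop] at hW
  exact Module.Finite.equiv (Submodule.topEquiv (R := K) (M := S))

/-- **Projective modules are free.** -/
theorem free_of_projective (hs : Algebra.adjoin K (Set.range s) = ⊤) (hq : Quasi a c s)
    {M : Type u} [AddCommGroup M] [Module K M] [Module S M] [IsScalarTower K S M]
    [FiniteDimensional K M] [Module.Projective S M] :
    ∃ r : ℕ, Nonempty (M ≃ₗ[S] (Fin r → S)) := by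
  classical
  let N := top1 K s M
  let b := Module.finBasis K (M ⧸ N)
  let r := Module.finrank K (M ⧸ N)
  choose p hp using fun i : Fin r => Submodule.mkQ_surjective N (b i)
  let φ : (Fin r → S) →ₗ[S] M := Fintype.linearCombination S p
  have hφ : ∀ v : Fin r → S, φ v = ∑ i, v i • p i := fun v => rfl
  -- surjectivity
  have hsurj : Function.Surjective φ := by
    rw [← LinearMap.range_eq_top]
    let I := LinearMap.range φ
    have hI : Subsingleton (M ⧸ I) := by
      apply nak hq
      rw [eq_top_iff]
      rintro x -
      obtain ⟨m, rfl⟩ := Submodule.mkQ_surjective I x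
      have h1 : N.mkQ m = ∑ i, b.repr (N.mkQ m) i • b i := (b.sum_repr _).symm
      have h2 : m - ∑ i, b.repr (N.mkQ m) i • p i ∈ N := by
        rw [← Submodule.Quotient.mk_eq_zero, Submodule.Quotient.mk_sub, sub_eq_zero]
        change N.mkQ m = N.mkQ _
        rw [map_sum]
        simp only [map_smul, hp]
        exact h1
      have h3 : ∑ i, b.repr (N.mkQ m) i • p i ∈ I := by
        refine ⟨fun i => algebraMap K S (b.repr (N.mkQ m) i), ?_⟩
        rw [hφ]
        exact Finset.sum_congr rfl fun i _ => algebraMap_smul S _ _
      have h4 := map_top1 (K := K) I.mkQ _ h2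
      rw [map_sub] at h4
      have h5 : I.mkQ (∑ i, b.repr (N.mkQ m) i • p i) = 0 := by
        change Submodule.Quotient.mk _ = _
        rw [Submodule.Quotient.mk_eq_zero]
        exact h3
      rw [h5, sub_zero] at h4
      exact h4
    exact Submodule.Quotient.subsingleton_iff.1 hI
  obtain ⟨σ, hσ⟩ := Module.projective_lifting_property φ LinearMap.id hsurj
  have hσ' : ∀ m, φ (σ m) = m := fun m => LinearMap.congr_fun hσ m
  -- the kernel
  let C := LinearMap.ker φ
  let π : (Fin r → S) →ₗ[S] C :=
    LinearMap.codRestrict C (LinearMap.id - σ ∘ₗ φ) (fun v => by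
      rw [LinearMap.mem_ker]
      simp [hσ'])
  have hπ : ∀ v : C, π v = v := by
    intro v
    apply Subtype.ext
    change (v : Fin r → S) - σ (φ v) = v
    have : φ (v : Fin r → S) = 0 := v.2
    rw [this, map_zero, sub_zero]
  have hC : Subsingleton C := by
    apply nak (K := K) hq
    rw [eq_top_iff]
    rintro v -
    rw [← hπ v]
    apply map_top1 (K := K)
    -- the constant parts vanish
    choose k hk using fun i => scalar_part (K := K) hs ((v : Fin r → S) i)
    have hv0 : ∑ i, (v : Fin r → S) i • p i = 0 := by
      have : φ (v : Fin r → S) = 0 := v.2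
      rwa [hφ] at this
    have h1 : ∑ i, k i • p i ∈ N := by
      have e : ∑ i, k i • p i = - ∑ i, ((v : Fin r → S) i - algebraMap K S (k i)) • p i := by
        simp only [sub_smul, Finset.sum_sub_distrib, algebraMap_smul]
        rw [hv0]
        simp
      rw [e]
      apply Submodule.neg_mem
      apply Submodule.sum_mem
      intro i _
      have := map_top1 (K := K) (LinearMap.toSpanSingleton S M (p i)) _ (hk i)
      exact this
    have h2 : ∑ i, k i • b i = 0 := by
      have : N.mkQ (∑ i, k i • p i) = 0 := by
        change Submodule.Quotient.mk _ = _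
        rw [Submodule.Quotient.mk_eq_zero]
        exact h1
      rw [map_sum] at this
      simp only [map_smul, hp] at this
      exact this
    have h3 : ∀ i, k i = 0 := Fintype.linearIndependent_iff.1 b.linearIndependent k h2
    have h4 : ∀ i, (v : Fin r → S) i ∈ top1 K s S := by
      intro i
      have := hk i
      rwa [h3 i, map_zero, sub_zero] at this
    have e : (v : Fin r → S) = ∑ i, LinearMap.single S (fun _ => S) i ((v : Fin r → S) i) := by
      ext j
      simp [Finset.sum_apply]
    rw [e]
    apply Submodule.sum_mem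
    intro i _
    exact map_top1 (K := K) _ _ (h4 i)
  have hinj : Function.Injective φ := by
    rw [← LinearMap.ker_eq_bot]
    exact Submodule.subsingleton_iff_eq_bot.1 hC
  exact ⟨r, ⟨(LinearEquiv.ofBijective φ ⟨hinj, hsurj⟩).symm⟩⟩

/-- the regular module is indecomposable -/
theorem indec_self (hs : Algebra.adjoin K (Set.range s) = ⊤) (hq : Quasi a c s) [Nontrivial S] :
    Pool.Agent.Q112.Rig.Indec S S := by
  classical
  refine ⟨inferInstance, ?_⟩
  intro U V hUV
  obtain ⟨u, hu, v, hv, huv⟩ := Submodule.mem_sup.1
    (show (1 : S) ∈ U ⊔ V by rw [hUV.sup_eq_top]; trivial)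
  -- a submodule generated by an element of `∑ s_i S` which is a summand vanishes
  have key : ∀ U V : Submodule S S, IsCompl U V → ∀ u ∈ U, ∀ v ∈ V, u + v = 1 →
      u ∈ top1 K s S → U = ⊥ := by
    intro U V hUV u hu v hv huv hN
    let π : S →ₗ[S] U := U.linearProjOfIsCompl V hUV
    have hπu : ∀ x ∈ U, ∀ y ∈ V, (π (x + y) : S) = x := by
      intro x hx y hy
      rw [map_add]
      have e1 : π x = ⟨x, hx⟩ := Submodule.linearProjOfIsCompl_apply_left hUV ⟨x, hx⟩
      have e2 : π y = 0 := Submodule.linearProjOfIsCompl_apply_right' hUV hy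
      rw [e1, e2, add_zero]
    have h1 : π u ∈ top1 K s U := map_top1 (K := K) π _ hN
    have h2 : Subsingleton U := by
      apply nak (K := K) hq
      rw [eq_top_iff]
      rintro x -
      -- `x = x u`
      have e : x = π ((x : S) * u) := by
        apply Subtype.ext
        have h3 : (x : S) = (x : S) * u + (x : S) * v := by rw [← mul_add, huv, mul_one]
        have h4 : (x : S) * v = 0 := by
          have hm : (x : S) * v ∈ U := by
            have : (x : S) * v = (x : S) - (x : S) * u := by
              rw [eq_sub_iff_add_eq, add_comm]; exact h3.symm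
            rw [this]
            exact Submodule.sub_mem _ x.2 (Submodule.smul_mem U (x : S) hu)
          have hm2 : (x : S) * v ∈ V := Submodule.smul_mem V (x : S) hv
          exact (Submodule.disjoint_def.1 hUV.disjoint) _ hm hm2
        rw [h4, add_zero] at h3
        rw [← h3]
        have := hπu x x.2 0 (Submodule.zero_mem _)
        rw [add_zero] at this
        exact this.symm
      rw [e]
      have e2 : π ((x : S) * u) = (x : S) • π u := map_smul π (x : S) u
      rw [e2]
      -- `x • π u` lies in `∑ s_i U`
      let R : S →ₗ[S] U := LinearMap.toSpanSingleton S U (π 1)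
      have e3 : (x : S) • π u = R ((x : S) * u) := by
        change _ = ((x : S) * u) • π 1
        rw [mul_smul, ← map_smul π u 1, smul_eq_mul, mul_one]
      rw [e3]
      apply map_top1 (K := K)
      obtain ⟨k, hk⟩ := scalar_part (K := K) hs (x : S)
      have e4 : (x : S) * u = ((x : S) - algebraMap K S k) * u + algebraMap K S k * u := by
        rw [← add_mul, sub_add_cancel]
      rw [e4]
      apply Submodule.add_mem
      · exact map_top1 (K := K) (LinearMap.toSpanSingleton S S u) _ hk
      · rw [← Algebra.smul_def]
        exact Submodule.smul_mem _ _ hN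
    exact Submodule.subsingleton_iff_eq_bot.1 h2
  by_cases hu0 : u ∈ top1 K s S
  · exact Or.inl (key U V hUV u hu v hv huv hu0)
  · by_cases hv0 : v ∈ top1 K s S
    · exact Or.inr (key V U hUV.symm v hv u hu (by rw [add_comm]; exact huv) hv0)
    · exfalso
      obtain ⟨k, hk⟩ := scalar_part (K := K) hs u
      let π : S →ₗ[S] U := U.linearProjOfIsCompl V hUV
      have hπu : ∀ x ∈ U, ∀ y ∈ V, (π (x + y) : S) = x := by
        intro x hx y hy
        rw [map_add]
        have e1 : π x = ⟨x, hx⟩ := Submodule.linearProjOfIsCompl_apply_left hUV ⟨x, hx⟩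
        have e2 : π y = 0 := Submodule.linearProjOfIsCompl_apply_right' hUV hy
        rw [e1, e2, add_zero]
      have h1 := map_top1 (K := K) (U.subtype ∘ₗ π) _ hk
      have e1 : (U.subtype ∘ₗ π) (u - algebraMap K S k) = u - algebraMap K S k * u := by
        have e : u - algebraMap K S k = (u - algebraMap K S k * u) + (- (algebraMap K S k * v)) := by
          have : algebraMap K S k = algebraMap K S k * u + algebraMap K S k * v := by
            rw [← mul_add, huv, mul_one]
          conv_lhs => rw [this]
          abel
        have := hπu (u - algebraMap K S k * u)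
          (Submodule.sub_mem _ hu (Submodule.smul_mem U (algebraMap K S k) hu))
          (- (algebraMap K S k * v)) (Submodule.neg_mem _ (Submodule.smul_mem V (algebraMap K S k) hv))
        rw [← e] at this
        exact this
      rw [e1] at h1
      have h2 : (1 - k) • u ∈ top1 K s S := by
        rw [sub_smul, one_smul, Algebra.smul_def]
        exact h1
      by_cases hk1 : 1 - k = 0
      · -- then `v ∈ ∑ s_i S`
        apply hv0
        have : v = -(u - algebraMap K S k) := by
          have hk' : k = 1 := by rw [sub_eq_zero] at hk1; exact hk1.symm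
          rw [hk', map_one, ← huv]
          abel
        rw [this]
        exact Submodule.neg_mem _ hk
      · apply hu0
        have := Submodule.smul_mem _ (1 - k)⁻¹ h2
        rwa [smul_smul, inv_mul_cancel₀ hk1, one_smul] at this

end module

end Pool.Agent.Q112.QCI
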