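import Mathlib

/-!
# Rigid tuples of quasi-commuting nilpotent matrices: lifting the Euler derivations
-/

set_option autoImplicit false

namespace Pool.Agent.Q112.QCI

open Matrix

universe u

variable {K : Type u} [Field K] {n : ℕ} {ι : Type} [Fintype ι] [DecidableEq ι]

/-- `∑_{p + q = a - 1} x ^ p * g * x ^ q` -/
def nrm {E : Type*} [Ring E] (a : ℕ) (x g : E) : E :=
  ∑ p ∈ Finset.range a, x ^ p * g * x ^ (a - 1 - p)

/-- quasi-commuting nilpotent elements -/
structure Quasi {E : Type*} [Ring E] [Algebra K E] (a : Fin n → ℕ) (c : Fin n → Fin n → K)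
    (X : Fin n → E) : Prop where
  pow : ∀ i, X i ^ a i = 0
  comm : ∀ i j, i ≠ j → X i * X j = c i j • (X j * X i)

/-- every first order deformation of the tuple is trivial -/
def Rigid {E : Type*} [Ring E] [Algebra K E] (a : Fin n → ℕ) (c : Fin n → Fin n → K)
    (X : Fin n → E) : Prop :=
  ∀ φ : Fin n → E, (∀ i, nrm (a i) (X i) (φ i) = 0) →
    (∀ i j, i ≠ j → φ i * X j + X i * φ j = c i j • (φ j * X i + X j * φ i)) →
    ∃ h : E, ∀ i, φ i = h * X i - X i * h

section lift

variable {E : Type*} [Ring E] [Algebra K E] {a : Fin n → ℕ} {c : Fin n → Fin n → K}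
  {X : Fin n → E}

/-- the invariant kept while lifting -/
def Good (X : Fin n → E) (j : Fin n) (D : E) : Prop :=
  (∀ k, k ≠ j → D * X k = X k * D) ∧ ∀ q : ℕ, ∃ F : E, D * X j ^ q = X j ^ q * F

theorem nrm_zero (m : ℕ) (x : E) : nrm m x 0 = 0 := by
  simp [nrm]

theorem step (hq : Quasi a c X) (hr : Rigid a c X) (j : Fin n) (D : E) (hD : Good X j D) :
    ∃ D' : E, Good X j D' ∧ D' * X j = X j * (D' + D) := by
  classical
  obtain ⟨hc, hp⟩ := hD
  have A1 : ∀ k, nrm (a k) (X k) (if k = j then X j * D else 0) = 0 := by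
    intro k
    by_cases hk : k = j
    · subst hk
      simp only [if_true]
      unfold nrm
      apply Finset.sum_eq_zero
      intro p hpm
      rw [Finset.mem_range] at hpm
      obtain ⟨F, hF⟩ := hp (a k - 1 - p)
      have e : X k ^ p * (X k * D) * X k ^ (a k - 1 - p) = X k ^ (a k) * F := by
        calc X k ^ p * (X k * D) * X k ^ (a k - 1 - p)
            = X k ^ p * X k * (D * X k ^ (a k - 1 - p)) := by noncomm_ring
          _ = X k ^ p * X k * X k ^ (a k - 1 - p) * F := by rw [hF]; noncomm_ring
          _ = X k ^ (a k) * F := by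
            rw [← pow_succ, ← pow_add]
            congr 2
            omega
      rw [e, hq.pow, zero_mul]
    · simp only [hk, if_false]
      exact nrm_zero _ _
  have A2 : ∀ i k, i ≠ k → (if i = j then X j * D else 0) * X k + X i * (if k = j then X j * D else 0) =
      c i k • ((if k = j then X j * D else 0) * X i + X k * (if i = j then X j * D else 0)) := by
    intro i k hik
    by_cases hi : i = j
    · subst hi
      have hk : k ≠ i := fun h => hik h.symm
      simp only [if_true, hk, if_false, mul_zero, zero_mul, add_zero, zero_add]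
      rw [mul_assoc, hc k hk, ← mul_assoc, hq.comm i k hik, smul_mul_assoc, mul_assoc]
    · by_cases hk : k = j
      · subst hk
        simp only [if_true, hi, if_false, mul_zero, zero_mul, add_zero, zero_add]
        rw [← mul_assoc, hq.comm i k hik, smul_mul_assoc, mul_assoc, mul_assoc, hc i hi]
      · simp [hi, hk]
  obtain ⟨h, hh⟩ := hr (fun k => if k = j then X j * D else 0) A1 A2
  have h1 : h * X j = X j * (h + D) := by
    have := hh j
    simp only [if_true] at this
    rw [mul_add, this]
    abel
  refine ⟨h, ⟨?_, ?_⟩, h1⟩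
  · intro k hk
    have := hh k
    simp only [hk, if_false] at this
    exact (sub_eq_zero.1 this.symm)
  · intro q
    induction q with
    | zero => exact ⟨h, by simp⟩
    | succ q ih =>
      obtain ⟨F, hF⟩ := ih
      obtain ⟨G, hG⟩ := hp q
      refine ⟨F + G, ?_⟩
      rw [pow_succ', ← mul_assoc, h1, mul_assoc, add_mul, hF, hG, ← mul_add, ← mul_assoc]

/-- the lifts of the Euler derivation in direction `j` -/
theorem exists_seq (hq : Quasi a c X) (hr : Rigid a c X) (j : Fin n) :
    ∃ D : ℕ → E, D 0 = 1 ∧ (∀ r k, k ≠ j → D r * X k = X k * D r) ∧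
      ∀ r, D (r + 1) * X j = X j * (D (r + 1) + D r) := by
  classical
  have h1 : Good X j (1 : E) := ⟨fun k _ => by simp, fun q => ⟨1, by simp⟩⟩
  choose! f hf using fun D hD => step hq hr j D hD
  let D : ℕ → E := fun r => f^[r] 1
  have hD : ∀ r, Good X j (D r) := by
    intro r
    induction r with
    | zero => exact h1
    | succ r ih =>
      change Good X j (f^[r + 1] 1)
      rw [Function.iterate_succ_apply']
      exact (hf _ ih).1
  refine ⟨D, rfl, fun r k hk => (hD r).1 k hk, fun r => ?_⟩
  have : D (r + 1) = f (D r) := Function.iterate_succ_apply' f r 1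
  rw [this]
  exact (hf _ (hD r)).2

end lift

end Pool.Agent.Q112.QCI
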