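import Pool.Agent.Q112.QCI.Final

/-!
# `Ext^1(M, M) = 0` implies that `M` is projective
-/

set_option autoImplicit false

namespace Pool.Agent.Q112.QCI

open CategoryTheory Abelian

universe u

section transfer

variable {K : Type u} [Field K] {n : ℕ} {E E' : Type u} [Ring E] [Algebra K E] [Ring E']
  [Algebra K E'] {a : Fin n → ℕ} {c : Fin n → Fin n → K}

theorem map_nrm_equiv (e : E ≃ₐ[K] E') (m : ℕ) (x g : E) :
    e (nrm m x g) = nrm m (e x) (e g) := by
  unfold nrm
  rw [map_sum]
  simp only [map_mul, map_pow]

theorem quasi_equiv (e : E ≃ₐ[K] E') {X : Fin n → E} (h : Quasi a c X) :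
    Quasi a c (fun i => e (X i)) where
  pow i := by rw [← map_pow, h.pow i, map_zero]
  comm i j hij := by rw [← map_mul, h.comm i j hij, map_smul, map_mul]

theorem rigid_equiv (e : E ≃ₐ[K] E') {X : Fin n → E} (h : Rigid a c X) :
    Rigid a c (fun i => e (X i)) := by
  intro φ h1 h2
  obtain ⟨g, hg⟩ := h (fun i => e.symm (φ i)) (by
    intro i
    have := congrArg e.symm (h1 i)
    rw [map_nrm_equiv, map_zero, e.symm_apply_apply] at this
    exact this) (by
    intro i j hij
    have := congrArg e.symm (h2 i j hij)
    simpa only [map_add, map_mul, map_smul, e.symm_apply_apply] using this)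
  refine ⟨e g, fun i => ?_⟩
  apply e.symm.injective
  rw [hg i, map_sub, map_mul, map_mul, e.symm_apply_apply, e.symm_apply_apply]

end transfer

/-- the underlying space of a self-extension -/
def Dbl (M : Type u) : Type u := M × M

instance (M : Type u) [AddCommGroup M] : AddCommGroup (Dbl M) := inferInstanceAs (AddCommGroup (M × M))
instance (K M : Type u) [Field K] [AddCommGroup M] [Module K M] : Module K (Dbl M) :=
  inferInstanceAs (Module K (M × M))

section ext

variable {K S : Type u} [Field K] [Ring S] [Algebra K S] {n : ℕ} {a : Fin n → ℕ}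
  {c : Fin n → Fin n → K}

/-- the deformed operator -/
def dop {M : Type u} [AddCommGroup M] [Module K M] (X φ : Module.End K M) :
    Module.End K (Dbl M) where
  toFun v := ((X v.1 + φ v.2, X v.2) : M × M)
  map_add' v w := by
    change ((X (v.1 + w.1) + φ (v.2 + w.2), X (v.2 + w.2)) : M × M) =
      ((X v.1 + φ v.2 + (X w.1 + φ w.2), X v.2 + X w.2) : M × M)
    rw [map_add, map_add, map_add]
    congr 1
    abel
  map_smul' k v := by
    change ((X (k • v.1) + φ (k • v.2), X (k • v.2)) : M × M) =
      ((k • (X v.1 + φ v.2), k • X v.2) : M × M)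
    rw [map_smul, map_smul, map_smul, smul_add]

theorem dop_apply {M : Type u} [AddCommGroup M] [Module K M] (X φ : Module.End K M) (v : M × M) :
    dop X φ (v : Dbl M) = ((X v.1 + φ v.2, X v.2) : M × M) := rfl

theorem dop_pow {M : Type u} [AddCommGroup M] [Module K M] (X φ : Module.End K M) (p : ℕ)
    (v : Dbl M) :
    (dop X φ ^ p) v = (((X ^ p) v.1 + (nrm p X φ) v.2, (X ^ p) v.2) : M × M) := by
  induction p generalizing v with
  | zero =>
    rw [pow_zero, pow_zero]
    have e : nrm 0 X φ = 0 := by simp [nrm]
    rw [e]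
    exact Prod.ext (add_zero _).symm rfl
  | succ p ih =>
    rw [pow_succ, Module.End.mul_apply]
    rw [ih]
    change (((X ^ p) (X v.1 + φ v.2) + (nrm p X φ) (X v.2), (X ^ p) (X v.2)) : M × M) = _
    have e : nrm (p + 1) X φ = nrm p X φ * X + X ^ p * φ := by
      unfold nrm
      rw [Finset.sum_range_succ, Finset.sum_mul]
      congr 1
      · apply Finset.sum_congr rfl
        intro r hr
        rw [Finset.mem_range] at hr
        rw [show p + 1 - 1 - r = (p - 1 - r) + 1 by omega, pow_succ, mul_assoc, mul_assoc, mul_assoc]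
      · simp
    rw [e]
    simp only [pow_succ, Module.End.mul_apply, LinearMap.add_apply, map_add]
    congr 1
    abel

theorem dop_quasi {M : Type u} [AddCommGroup M] [Module K M] {X φ : Fin n → Module.End K M}
    (h : Quasi a c X) (h1 : ∀ i, nrm (a i) (X i) (φ i) = 0)
    (h2 : ∀ i j, i ≠ j → φ i * X j + X i * φ j = c i j • (φ j * X i + X j * φ i)) :
    Quasi a c (fun i => dop (X i) (φ i)) where
  pow i := by
    apply LinearMap.ext
    intro v
    have := dop_pow (X i) (φ i) (a i) v
    rw [h1 i, h.pow i] at this
    rw [this]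
    exact Prod.ext (add_zero _) rfl
  comm i j hij := by
    apply LinearMap.ext
    intro v
    have e1 : (dop (X i) (φ i) * dop (X j) (φ j)) v =
        (((X i * X j) v.1 + (φ i * X j + X i * φ j) v.2, (X i * X j) v.2) : M × M) := by
      change ((X i (X j v.1 + φ j v.2) + φ i (X j v.2), X i (X j v.2)) : M × M) = _
      rw [map_add]
      simp only [Module.End.mul_apply, LinearMap.add_apply]
      congr 1
      abel
    have e2 : (dop (X j) (φ j) * dop (X i) (φ i)) v =
        (((X j * X i) v.1 + (φ j * X i + X j * φ i) v.2, (X j * X i) v.2) : M × M) := by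
      change ((X j (X i v.1 + φ i v.2) + φ j (X i v.2), X j (X i v.2)) : M × M) = _
      rw [map_add]
      simp only [Module.End.mul_apply, LinearMap.add_apply]
      congr 1
      abel
    rw [LinearMap.smul_apply, e1, e2, h.comm i j hij, h2 i j hij]
    change _ = ((c i j • ((X j * X i) v.1 + (φ j * X i + X j * φ i) v.2),
      c i j • (X j * X i) v.2) : M × M)
    exact Prod.ext (smul_add (c i j) ((X j * X i) v.1) ((φ j * X i + X j * φ i) v.2)).symm rfl

theorem rigid_of_ext (s : Fin n → S) (hs : Algebra.adjoin K (Set.range s) = ⊤) (hq : Quasi a c s)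
    (hU : ∀ (E : Type u) [AddCommGroup E] [Module K E] (Y : Fin n → Module.End K E),
      Quasi a c Y → ∃ ρ : S →ₐ[K] Module.End K E, ∀ i, ρ (s i) = Y i)
    {M : Type u} [AddCommGroup M] [Module K M] [Module S M] [IsScalarTower K S M]
    (hE : Subsingleton (Ext (ModuleCat.of S M) (ModuleCat.of S M) 1)) :
    Rigid a c (fun i => opr K M (s i)) := by
  intro φ h1 h2
  obtain ⟨ρ, hρ⟩ := hU (Dbl M) (fun i => dop (opr K M (s i)) (φ i)) (dop_quasi (opr_quasi hq) h1 h2)
  letI : Module S (Dbl M) := Module.compHom (Dbl M) ρ.toRingHom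
  have hsm : ∀ (x : S) (v : Dbl M), x • v = ρ x v := fun _ _ => rfl
  haveI : IsScalarTower K S (Dbl M) := ⟨fun k x v => by
    rw [hsm, hsm, map_smul]
    rfl⟩
  obtain ⟨f, hf⟩ := lin_of_gen (K := K) s hs (M := M) (N := Dbl M)
    { toFun := fun m => ((m, 0) : M × M)
      map_add' := fun x y => by
        change ((x + y, 0) : M × M) = ((x + y, 0 + 0) : M × M)
        rw [add_zero]
      map_smul' := fun k x => by
        change ((k • x, 0) : M × M) = ((k • x, k • 0) : M × M)
        rw [smul_zero] } (by
      intro i m
      rw [hsm, hρ]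
      change ((s i • m, 0) : M × M) = ((s i • m + φ i 0, s i • (0 : M)) : M × M)
      rw [map_zero, add_zero, smul_zero])
  obtain ⟨g, hg⟩ := lin_of_gen (K := K) s hs (M := Dbl M) (N := M)
    { toFun := fun v => v.2
      map_add' := fun x y => rfl
      map_smul' := fun k x => rfl } (by
      intro i v
      rw [hsm, hρ]
      rfl)
  have hf' : ∀ m, f m = ((m, 0) : M × M) := hf
  have hg' : ∀ v : Dbl M, g v = v.2 := hg
  obtain ⟨t, ht⟩ := split_of_ext f g (by
    intro x y hxy
    rw [hf', hf'] at hxy
    exact congrArg Prod.fst hxy) (by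
    intro m
    exact ⟨((0, m) : M × M), hg' _⟩) (by
    intro v
    constructor
    · intro hv
      rw [hg'] at hv
      refine ⟨v.1, ?_⟩
      rw [hf']
      exact Prod.ext rfl hv.symm
    · rintro ⟨m, rfl⟩
      rw [hg', hf']) hE
  let h : Module.End K M :=
    { toFun := fun m => (t m).1
      map_add' := fun x y => by rw [map_add]; rfl
      map_smul' := fun k x => by
        have : t (k • x) = k • t x := by
          rw [← algebraMap_smul S k x, map_smul, algebraMap_smul]
        rw [this]; rfl }
  refine ⟨h, fun i => ?_⟩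
  ext m
  have e2 : (t m).2 = m := by
    have := LinearMap.congr_fun ht m
    rw [LinearMap.comp_apply, hg'] at this
    exact this
  have e1 : t (s i • m) = dop (opr K M (s i)) (φ i) (t m) := by
    rw [map_smul, hsm, hρ]
  have e3 : (t (s i • m)).1 = s i • (t m).1 + φ i (t m).2 := by
    rw [e1]; rfl
  rw [e2] at e3
  change φ i m = (t (s i • m)).1 - s i • (t m).1
  rw [e3]
  abel

/-- **Main theorem.** Over an algebra presented by nilpotent quasi-commuting generators every
finite-dimensional module without self-extensions is projective. -/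
theorem projective_of_ext (s : Fin n → S) (hs : Algebra.adjoin K (Set.range s) = ⊤)
    (hq : Quasi a c s)
    (hU : ∀ (E : Type u) [AddCommGroup E] [Module K E] (Y : Fin n → Module.End K E),
      Quasi a c Y → ∃ ρ : S →ₐ[K] Module.End K E, ∀ i, ρ (s i) = Y i)
    (hcc : ∀ i j, i ≠ j → c i j * c j i = 1) (ha : ∀ i, 1 ≤ a i)
    {M : Type u} [AddCommGroup M] [Module K M] [Module S M] [IsScalarTower K S M]
    [FiniteDimensional K M]
    (hE : Subsingleton (Ext (ModuleCat.of S M) (ModuleCat.of S M) 1)) :
    Module.Projective S M := by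
  classical
  have hr := rigid_of_ext s hs hq hU hE
  have hq' := opr_quasi (M := M) hq
  let e := LinearMap.toMatrixAlgEquiv (Module.finBasis K M)
  have h1 := fun i => core (quasi_equiv e hq') (rigid_equiv e hr) hcc ha i
  choose g hg hN using h1
  refine proj_of_trace s hs hq hcc (fun i => e.symm (g i)) ?_ ?_
  · intro i j hj
    apply e.injective
    have := hg i j hj
    rw [map_mul, map_smul, map_mul, e.apply_symm_apply]
    exact this
  · intro i
    apply e.injective
    rw [map_nrm_equiv, e.apply_symm_apply, map_one]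
    exact hN i

end ext

end Pool.Agent.Q112.QCI
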