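import Pool.Agent.Q112.QCI.Base

/-!
# The trace identity
-/

set_option autoImplicit false

namespace Pool.Agent.Q112.QCI

universe u

variable {L : Type u} [Field L] {E : Type u} [Ring E] [Algebra L E] {n : ℕ}

/-- elements quasi-commuting with `X j`, `j ≠ i`, with parameters `t` -/
def HH (X : Fin n → E) (i : Fin n) (t : Fin n → L) : Submodule L E where
  carrier := {g | ∀ j, j ≠ i → g * X j = t j • (X j * g)}
  zero_mem' := by intro j _; simp
  add_mem' := by
    intro g h hg hh j hj
    rw [add_mul, hg j hj, hh j hj, mul_add, smul_add]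
  smul_mem' := by
    intro r g hg j hj
    rw [smul_mul_assoc, hg j hj, mul_smul_comm, smul_comm]

theorem mem_HH (X : Fin n → E) (i : Fin n) (t : Fin n → L) (g : E) :
    g ∈ HH X i t ↔ ∀ j, j ≠ i → g * X j = t j • (X j * g) := Iff.rfl

/-- `h ↦ h x - x h` -/
def adl (L : Type u) [Field L] [Algebra L E] (x : E) : E →ₗ[L] E :=
  LinearMap.mulRight L x - LinearMap.mulLeft L x

theorem adl_apply (x h : E) : adl L x h = h * x - x * h := by
  simp [adl]

/-- the norm map -/
def nrml (L : Type u) [Field L] [Algebra L E] (m : ℕ) (x : E) : E →ₗ[L] E where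
  toFun g := nrm m x g
  map_add' g h := by
    simp only [nrm, mul_add, add_mul, Finset.sum_add_distrib]
  map_smul' r g := by
    simp only [nrm, mul_smul_comm, smul_mul_assoc, Finset.smul_sum, RingHom.id_apply]

theorem nrml_apply (m : ℕ) (x g : E) : nrml L m x g = nrm m x g := rfl

theorem qpow_left (x y : E) (c : L) (h : x * y = c • (y * x)) (m : ℕ) :
    x ^ m * y = c ^ m • (y * x ^ m) := by
  induction m with
  | zero => simp
  | succ m ih =>
    rw [pow_succ, mul_assoc, h, mul_smul_comm, ← mul_assoc, ih, smul_mul_assoc, smul_smul, mul_assoc,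
      pow_succ']

theorem surj [FiniteDimensional L E] {a : Fin n → ℕ} {c : Fin n → Fin n → L} {X : Fin n → E}
    (hq : Quasi a c X) (hr : Rigid a c X) (hcc : ∀ i j, i ≠ j → c i j * c j i = 1) (i : Fin n)
    (hm : 1 ≤ a i) (F : Eˣ) (hF : ∀ j, j ≠ i → (F : E) * X j = c i j • (X j * (F : E)))
    (hFi : (F : E) * X i = X i * (F : E)) :
    ∃ g : E, (∀ j, j ≠ i → X j * g = (c i j) ^ (a i - 1) • (g * X j)) ∧ nrm (a i) (X i) g = 1 := by
  classical
  have c0 : ∀ j, j ≠ i → c i j ≠ 0 := by
    intro j hj h
    have := hcc i j hj.symm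
    rw [h, zero_mul] at this
    exact zero_ne_one this
  let H0 : Submodule L E := HH X i (fun _ => (1 : L))
  let H1 : Submodule L E := HH X i (fun j => c i j)
  let Ha : Submodule L E := HH X i (fun j => c i j ^ (a i))
  let ad := adl L (X i)
  let N := nrml L (a i) (X i)
  have xpow := hq.pow i
  have hx : ∀ j, j ≠ i → X i * X j = c i j • (X j * X i) := fun j hj => hq.comm i j hj.symm
  -- (1)
  have s1 : H0.map ad = H1 ⊓ LinearMap.ker N := by
    ext g
    constructor
    · rintro ⟨h, hh, rfl⟩
      refine ⟨?_, ?_⟩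
      · intro j hj
        have e := hh j hj
        rw [one_smul] at e
        simp only [ad, adl_apply]
        rw [sub_mul, mul_assoc, hx j hj, mul_smul_comm, ← mul_assoc, e, mul_assoc (X i) h, e,
          ← mul_assoc (X i), hx j hj, smul_mul_assoc, mul_sub, smul_sub]
        simp only [mul_assoc]
      · rw [SetLike.mem_coe, LinearMap.mem_ker]
        change nrm (a i) (X i) (adl L (X i) h) = 0
        rw [adl_apply]
        exact nrm_ad (a i) (X i) h xpow hm
    · rintro ⟨hg, hN⟩
      rw [SetLike.mem_coe, LinearMap.mem_ker] at hN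
      obtain ⟨h, hh⟩ := hr (fun k => if k = i then g else 0) (by
        intro k
        by_cases hk : k = i
        · subst hk
          simp only [if_true]
          exact hN
        · simp only [hk, if_false]
          exact nrm_zero _ _) (by
        intro k j hkj
        by_cases hk : k = i
        · subst hk
          have hj : j ≠ k := fun h => hkj h.symm
          simp only [if_true, hj, if_false, mul_zero, zero_mul, add_zero, zero_add]
          exact hg j hj
        · by_cases hj : j = i
          · subst hj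
            simp only [if_true, hk, if_false, mul_zero, zero_mul, add_zero, zero_add]
            rw [hg k hk, smul_smul, hcc k j hk, one_smul]
          · simp [hk, hj])
      refine ⟨h, ?_, ?_⟩
      · intro j hj
        have := hh j
        simp only [hj, if_false] at this
        rw [one_smul]
        exact sub_eq_zero.1 this.symm
      · have := hh i
        simp only [if_true] at this
        simp only [ad, adl_apply]
        exact this.symm
  -- multiplication by powers of `F`
  have Fpow : ∀ m j, j ≠ i → (F : E) ^ m * X j = c i j ^ m • (X j * (F : E) ^ m) :=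
    fun m j hj => qpow_left _ _ _ (hF j hj) m
  have Fipow : ∀ m, (F : E) ^ m * X i = X i * (F : E) ^ m := fun m =>
    ((show Commute (F : E) (X i) from hFi).pow_left m).eq
  let ef : (m : ℕ) → E ≃ₗ[L] E := fun m =>
    LinearEquiv.ofLinear (LinearMap.mulLeft L ((F : E) ^ m)) (LinearMap.mulLeft L ((↑F⁻¹ : E) ^ m))
      (by
        ext g
        simp only [LinearMap.comp_apply, LinearMap.mulLeft_apply, LinearMap.id_apply]
        rw [← mul_assoc, ← Units.val_pow_eq_pow_val, ← Units.val_pow_eq_pow_val, ← Units.val_mul,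
          inv_pow, mul_inv_cancel, Units.val_one, one_mul])
      (by
        ext g
        simp only [LinearMap.comp_apply, LinearMap.mulLeft_apply, LinearMap.id_apply]
        rw [← mul_assoc, ← Units.val_pow_eq_pow_val, ← Units.val_pow_eq_pow_val, ← Units.val_mul,
          inv_pow, inv_mul_cancel, Units.val_one, one_mul])
  have efa : ∀ m g, ef m g = (F : E) ^ m * g := fun m g => rfl
  have efs : ∀ m g, (ef m).symm g = (↑F⁻¹ : E) ^ m * g := fun m g => rfl
  have canc : ∀ m g, (F : E) ^ m * ((↑F⁻¹ : E) ^ m * g) = g := by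
    intro m g
    rw [← efs, ← efa]
    exact (ef m).apply_symm_apply g
  -- inverse quasi-commutation
  have Finv : ∀ m j, j ≠ i → X j * (↑F⁻¹ : E) ^ m = c i j ^ m • ((↑F⁻¹ : E) ^ m * X j) := by
    intro m j hj
    apply (ef m).injective
    rw [efa, efa, ← mul_assoc, Fpow m j hj, smul_mul_assoc, mul_smul_comm, canc, mul_assoc]
    congr 1
    have := canc m 1
    rw [mul_one] at this
    rw [this, mul_one]
  have Fiinv : ∀ m, X i * (↑F⁻¹ : E) ^ m = (↑F⁻¹ : E) ^ m * X i := by
    intro m
    apply (ef m).injective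
    rw [efa, efa, ← mul_assoc, Fipow m, canc, mul_assoc]
    have := canc m 1
    rw [mul_one] at this
    rw [this, mul_one]
  -- (2)
  have s2 : H0.map (ef 1).toLinearMap = H1 := by
    ext g
    constructor
    · rintro ⟨h, hh, rfl⟩
      intro j hj
      have e := hh j hj
      rw [one_smul] at e
      change (F : E) ^ 1 * h * X j = c i j • (X j * ((F : E) ^ 1 * h))
      rw [pow_one, mul_assoc, e, ← mul_assoc, hF j hj, smul_mul_assoc, mul_assoc]
    · intro hg
      refine ⟨(ef 1).symm g, ?_, (ef 1).apply_symm_apply g⟩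
      intro j hj
      have e := hg j hj
      rw [efs, one_smul, mul_assoc, e, mul_smul_comm, ← mul_assoc, ← smul_mul_assoc]
      have := Finv 1 j hj
      rw [pow_one (c i j)] at this
      rw [← this, mul_assoc]
  -- (3)
  have s3 : (H0 ⊓ LinearMap.ker ad).map (ef (a i)).toLinearMap = Ha ⊓ LinearMap.ker ad := by
    ext g
    constructor
    · rintro ⟨h, ⟨hh, hk⟩, rfl⟩
      rw [SetLike.mem_coe, LinearMap.mem_ker] at hk
      simp only [ad, adl_apply] at hk
      refine ⟨?_, ?_⟩
      · intro j hj
        have e := hh j hj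
        rw [one_smul] at e
        change (F : E) ^ (a i) * h * X j = c i j ^ (a i) • (X j * ((F : E) ^ (a i) * h))
        rw [mul_assoc, e, ← mul_assoc, Fpow _ j hj, smul_mul_assoc, mul_assoc]
      · rw [SetLike.mem_coe, LinearMap.mem_ker]
        simp only [ad, adl_apply]
        change (F : E) ^ (a i) * h * X i - X i * ((F : E) ^ (a i) * h) = 0
        rw [mul_assoc, ← mul_assoc (X i), ← Fipow, mul_assoc, ← mul_sub, hk, mul_zero]
    · rintro ⟨hg, hk⟩
      rw [SetLike.mem_coe, LinearMap.mem_ker] at hk
      simp only [ad, adl_apply] at hk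
      refine ⟨(ef (a i)).symm g, ⟨?_, ?_⟩, (ef (a i)).apply_symm_apply g⟩
      · intro j hj
        have e := hg j hj
        rw [efs, one_smul, mul_assoc, e, mul_smul_comm, ← mul_assoc, ← smul_mul_assoc,
          ← Finv (a i) j hj, mul_assoc]
      · rw [SetLike.mem_coe, LinearMap.mem_ker]
        simp only [ad, adl_apply]
        rw [efs, mul_assoc, ← mul_assoc (X i), Fiinv, mul_assoc, ← mul_sub, hk, mul_zero]
  -- (4)
  have r1 := finrank_map_add ad H0
  have r2 := finrank_map_add N H1
  have r3 : Module.finrank L H1 = Module.finrank L H0 := by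
    rw [← s2]
    exact LinearEquiv.finrank_map_eq (ef 1) H0
  have r4 : Module.finrank L (Ha ⊓ LinearMap.ker ad : Submodule L E) =
      Module.finrank L (H0 ⊓ LinearMap.ker ad : Submodule L E) := by
    rw [← s3]
    exact LinearEquiv.finrank_map_eq (ef (a i)) _
  rw [s1] at r1
  -- (5)
  have s5 : H1.map N ≤ Ha ⊓ LinearMap.ker ad := by
    rintro g ⟨h, hh, rfl⟩
    refine ⟨?_, ?_⟩
    · intro j hj
      change nrm (a i) (X i) h * X j = c i j ^ (a i) • (X j * nrm (a i) (X i) h)
      unfold nrm
      rw [Finset.sum_mul, Finset.mul_sum, Finset.smul_sum]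
      apply Finset.sum_congr rfl
      intro p hp
      rw [Finset.mem_range] at hp
      have e1 := qpow_left _ _ _ (hx j hj) (a i - 1 - p)
      have e2 := qpow_left _ _ _ (hx j hj) p
      have e3 := hh j hj
      calc X i ^ p * h * X i ^ (a i - 1 - p) * X j
          = X i ^ p * h * (X i ^ (a i - 1 - p) * X j) := by noncomm_ring
        _ = c i j ^ (a i - 1 - p) • (X i ^ p * (h * X j) * X i ^ (a i - 1 - p)) := by
            rw [e1, mul_smul_comm]; congr 1; noncomm_ring
        _ = (c i j ^ (a i - 1 - p) * c i j) • ((X i ^ p * X j) * h * X i ^ (a i - 1 - p)) := by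
            rw [e3, mul_smul_comm, smul_mul_assoc, smul_smul]; congr 1; noncomm_ring
        _ = (c i j ^ (a i - 1 - p) * c i j * c i j ^ p) •
              (X j * (X i ^ p * h * X i ^ (a i - 1 - p))) := by
            rw [e2, smul_mul_assoc, smul_mul_assoc, smul_smul]; congr 1; noncomm_ring
        _ = c i j ^ (a i) • (X j * (X i ^ p * h * X i ^ (a i - 1 - p))) := by
            congr 1
            rw [← pow_succ, ← pow_add]
            congr 1
            omega
    · rw [SetLike.mem_coe, LinearMap.mem_ker]
      simp only [ad, adl_apply]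
      change nrm (a i) (X i) h * X i - X i * nrm (a i) (X i) h = 0
      rw [nrm_comm _ _ _ xpow hm, sub_self]
  have s6 : H1.map N = Ha ⊓ LinearMap.ker ad := by
    apply Submodule.eq_of_le_of_finrank_eq s5
    rw [r4]
    omega
  have s7 : (F : E) ^ (a i) ∈ Ha ⊓ LinearMap.ker ad := by
    refine ⟨fun j hj => Fpow _ j hj, ?_⟩
    rw [SetLike.mem_coe, LinearMap.mem_ker]
    simp only [ad, adl_apply]
    rw [Fipow, sub_self]
  rw [← s6] at s7
  obtain ⟨g1, hg1, hN⟩ := s7
  refine ⟨(↑F⁻¹ : E) ^ (a i) * g1, ?_, ?_⟩
  · intro j hj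
    have e := hg1 j hj
    have e' : X j * g1 = (c i j)⁻¹ • (g1 * X j) := by
      rw [e, smul_smul, inv_mul_cancel₀ (c0 j hj), one_smul]
    rw [← mul_assoc, Finv _ j hj, smul_mul_assoc, mul_assoc, e', mul_smul_comm, smul_smul, mul_assoc]
    congr 1
    obtain ⟨r, hr'⟩ : ∃ r, a i = r + 1 := ⟨a i - 1, by omega⟩
    rw [hr', pow_succ, mul_assoc, mul_inv_cancel₀ (c0 j hj), mul_one]
    rfl
  · rw [nrm_mul_left _ _ _ _ (Fiinv (a i)).symm]
    have hN' : nrm (a i) (X i) g1 = (F : E) ^ (a i) := hN
    rw [hN']
    have : (↑F⁻¹ : E) ^ (a i) * (F : E) ^ (a i) = 1 := by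
      rw [← Units.val_pow_eq_pow_val, ← Units.val_pow_eq_pow_val, ← Units.val_mul,
        inv_pow, inv_mul_cancel, Units.val_one]
    exact this

end Pool.Agent.Q112.QCI
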